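import Pool.Agent.Run7.h638.Exist

set_option autoImplicit false
set_option linter.unusedSectionVars false

namespace Run7.h638

open Finset Function

/-- `M` is a transversal matroid: for some family `A` of sets, the independent sets are the
partial transversals of `A` (inside the ground set). -/
def IsTransversalMatroid {α : Type} (M : Matroid α) : Prop :=
  ∃ (κ : Type) (A : κ → Set α), ∀ X : Set α,
    M.Indep X ↔ (X ⊆ M.E ∧ ∃ f : X → κ, Function.Injective f ∧ ∀ x : X, (x : α) ∈ A (f x))

section

variable {α κ : Type} [DecidableEq α] [DecidableEq κ] {k : ℕ} {B : Fin k → Finset α}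
  {T : Finset κ}

/-- the slot capacities: one for each slot in `T` -/
def cap (T : Finset κ) : Option {j // j ∈ T} → ℕ
  | none => 0
  | some _ => 1

lemma exists_slot (disj : ∀ i j, i ≠ j → Disjoint (B i) (B j))
    (f : ∀ i, {x // x ∈ B i} → {j // j ∈ T}) :
    ∃ π : α → Option {j // j ∈ T}, ∀ i x (hx : x ∈ B i), π x = some (f i ⟨x, hx⟩) := by
  classical
  refine ⟨fun x => if h : ∃ i, x ∈ B i then some (f h.choose ⟨x, h.choose_spec⟩) else none, ?_⟩
  intro i x hx
  have h : ∃ i, x ∈ B i := ⟨i, hx⟩
  simp only
  rw [dif_pos h]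
  have hi : h.choose = i := by
    by_contra hne
    exact Finset.disjoint_left.1 (disj _ _ hne) h.choose_spec hx
  have key : ∀ i' (hx' : x ∈ B i'), i' = i → some (f i' ⟨x, hx'⟩) = some (f i ⟨x, hx⟩) := by
    rintro i' hx' rfl
    rfl
  exact key _ _ hi

lemma slot_le_one {f : ∀ i, {x // x ∈ B i} → {j // j ∈ T}} (hf : ∀ i, Injective (f i))
    {π : α → Option {j // j ∈ T}} (hπ : ∀ i x (hx : x ∈ B i), π x = some (f i ⟨x, hx⟩))
    (i : Fin k) (j : Option {j // j ∈ T}) :
    ((B i).filter (fun x => π x = j)).card ≤ cap T j := by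
  rcases j with _ | j
  · change _ ≤ 0
    rw [Nat.le_zero, Finset.card_eq_zero, Finset.filter_eq_empty_iff]
    intro x hx h
    rw [hπ i x hx] at h
    exact absurd h (by simp)
  · change _ ≤ 1
    rw [Finset.card_le_one]
    intro a ha b hb
    rw [mem_filter] at ha hb
    obtain ⟨ha1, ha2⟩ := ha
    obtain ⟨hb1, hb2⟩ := hb
    have h1 := hπ i a ha1
    have h2 := hπ i b hb1
    have h3 : f i ⟨a, ha1⟩ = f i ⟨b, hb1⟩ :=
      Option.some.inj ((h1.symm.trans ha2).trans (hb2.symm.trans h2))
    exact congrArg Subtype.val (hf i h3)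

lemma slot_eq_one {f : ∀ i, {x // x ∈ B i} → {j // j ∈ T}} (hf : ∀ i, Injective (f i))
    (hcard : ∀ i, (B i).card = T.card)
    {π : α → Option {j // j ∈ T}} (hπ : ∀ i x (hx : x ∈ B i), π x = some (f i ⟨x, hx⟩))
    (i : Fin k) (j : Option {j // j ∈ T}) :
    ((B i).filter (fun x => π x = j)).card = cap T j := by
  refine le_antisymm (slot_le_one hf hπ i j) ?_
  rcases j with _ | j
  · exact Nat.zero_le _
  · change 1 ≤ _
    have hbij : Bijective (f i) := by
      rw [Fintype.bijective_iff_injective_and_card]
      refine ⟨hf i, ?_⟩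
      rw [Fintype.card_coe, Fintype.card_coe]
      exact hcard i
    obtain ⟨⟨x, hx⟩, hxj⟩ := hbij.2 j
    refine Finset.card_pos.2 ⟨x, ?_⟩
    rw [mem_filter]
    exact ⟨hx, by rw [hπ i x hx, hxj]⟩

lemma sum_cap (T : Finset κ) : ∑ j, cap T j = T.card := by
  rw [Fintype.sum_option]
  simp [cap]

lemma indep_of_ok {M₁ : Matroid α} {A : κ → Set α}
    (hA : ∀ X : Set α,
      M₁.Indep X ↔ (X ⊆ M₁.E ∧ ∃ f : X → κ, Function.Injective f ∧ ∀ x : X, (x : α) ∈ A (f x)))
    (hE : ∀ i x, x ∈ B i → x ∈ M₁.E)
    {f : ∀ i, {x // x ∈ B i} → {j // j ∈ T}}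
    (hfA : ∀ i (x : {x // x ∈ B i}), (x : α) ∈ A (f i x).1)
    {π : α → Option {j // j ∈ T}} (hπ : ∀ i x (hx : x ∈ B i), π x = some (f i ⟨x, hx⟩))
    {g : Fin k → α} (hg : ∀ i, g i ∈ B i) (hok : OK π (cap T) 0 g) :
    M₁.Indep (Set.range g) := by
  classical
  rw [hA]
  refine ⟨?_, ?_⟩
  · rintro _ ⟨i, rfl⟩
    exact hE i _ (hg i)
  · let F : Set.range g → κ := fun x => (f x.2.choose ⟨g x.2.choose, hg _⟩).1
    have hF : ∀ x : Set.range g, g x.2.choose = x.1 := fun x => x.2.choose_spec
    refine ⟨F, ?_, ?_⟩
    · intro x y hxy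
      have h1 : f x.2.choose ⟨g x.2.choose, hg _⟩ = f y.2.choose ⟨g y.2.choose, hg _⟩ :=
        Subtype.ext hxy
      have h2 : π (g x.2.choose) = π (g y.2.choose) := by
        rw [hπ _ _ (hg x.2.choose), hπ _ _ (hg y.2.choose), h1]
      have h3 : x.2.choose = y.2.choose := by
        have h4 := hok (some (f x.2.choose ⟨g x.2.choose, hg _⟩))
        simp only [Pi.zero_apply, zero_add] at h4
        change cnt π g _ ≤ 1 at h4
        unfold cnt at h4
        rw [Finset.card_le_one] at h4
        refine h4 _ ?_ _ ?_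
        · rw [mem_filter]
          exact ⟨mem_univ _, hπ _ _ (hg x.2.choose)⟩
        · rw [mem_filter]
          exact ⟨mem_univ _, by rw [← h2, hπ _ _ (hg x.2.choose)]⟩
      apply Subtype.ext
      rw [← hF x, ← hF y, h3]
    · intro x
      have := hfA x.2.choose ⟨g x.2.choose, hg _⟩
      simp only at this
      rw [← hF x] 
      exact this

end

/-- bases of a transversal matroid are all matched into the same slots -/
lemma exists_matching {α κ : Type} [DecidableEq α] [DecidableEq κ] {M : Matroid α}
    {A : κ → Set α}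
    (hA : ∀ X : Set α,
      M.Indep X ↔ (X ⊆ M.E ∧ ∃ f : X → κ, Function.Injective f ∧ ∀ x : X, (x : α) ∈ A (f x)))
    {C D : Finset α} (hC : M.IsBase (C : Set α)) (hD : M.Indep (D : Set α))
    (f0 : {x // x ∈ C} → κ) (hf0 : Injective f0) (hf0A : ∀ x, (x : α) ∈ A (f0 x)) :
    ∃ f : {x // x ∈ D} → {j // j ∈ (univ : Finset {x // x ∈ C}).image f0},
      Injective f ∧ ∀ x, (x : α) ∈ A (f x).1 := by
  classical
  set T : Finset κ := (univ : Finset {x // x ∈ C}).image f0 with hT
  obtain ⟨hDE, g, hg, hgA⟩ := (hA _).1 hD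
  have hall : ∀ s : Finset {x // x ∈ D},
      s.card ≤ (s.biUnion (fun x => T.filter (fun j => (x : α) ∈ A j))).card := by
    intro s
    by_contra hlt
    push Not at hlt
    set Z : Finset κ := s.biUnion (fun x => T.filter (fun j => (x : α) ∈ A j)) with hZ
    set X : Finset α := s.map (Function.Embedding.subtype _) with hX
    set C' : Finset {x // x ∈ C} := univ.filter (fun b => f0 b ∉ Z) with hC'
    have hXD : ∀ x ∈ X, x ∈ D := by
      intro x hx
      rw [hX, Finset.mem_map] at hx
      obtain ⟨y, _, rfl⟩ := hx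
      exact y.2
    have hXs : ∀ x (hx : x ∈ X), (⟨x, hXD x hx⟩ : {x // x ∈ D}) ∈ s := by
      intro x hx
      have hx' := hx
      rw [hX, Finset.mem_map] at hx'
      obtain ⟨y, hy, hyx⟩ := hx'
      have : y = ⟨x, hXD x hx⟩ := Subtype.ext hyx
      rw [← this]
      exact hy
    have hXC' : ∀ b ∈ C', (b : α) ∉ X := by
      intro b hb hbX
      rw [hC', mem_filter] at hb
      apply hb.2
      rw [hZ, mem_biUnion]
      refine ⟨⟨b, hXD _ hbX⟩, hXs _ hbX, ?_⟩
      rw [mem_filter]
      exact ⟨Finset.mem_image_of_mem _ (mem_univ _), hf0A b⟩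
    -- the set X together with C' is independent
    have hI : M.Indep (((X ∪ C'.map (Function.Embedding.subtype _) : Finset α)) : Set α) := by
      rw [hA]
      refine ⟨?_, ?_⟩
      · intro x hx
        rw [Finset.mem_coe, Finset.mem_union] at hx
        rcases hx with hx | hx
        · exact hDE (hXD x hx)
        · rw [Finset.mem_map] at hx
          obtain ⟨y, _, rfl⟩ := hx
          exact hC.subset_ground y.2
      · let h : (((X ∪ C'.map (Function.Embedding.subtype _) : Finset α)) : Set α) → κ :=
          fun x => if hx : x.1 ∈ X then g ⟨x.1, hXD _ hx⟩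
            else if hx' : x.1 ∈ C then f0 ⟨x.1, hx'⟩ else g ⟨x.1, by
              exfalso
              have h2 := x.2
              rw [Finset.mem_coe, Finset.mem_union] at h2
              rcases h2 with h2 | h2
              · exact hx h2
              · rw [Finset.mem_map] at h2
                obtain ⟨y, _, hy⟩ := h2
                exact hx' (hy ▸ y.2)⟩
        have h1 : ∀ x, (hx : x.1 ∈ X) → h x = g ⟨x.1, hXD _ hx⟩ := by
          intro x hx
          simp only [h]
          rw [dif_pos hx]
        have h2 : ∀ x : (((X ∪ C'.map (Function.Embedding.subtype _) : Finset α)) : Set α),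
            x.1 ∉ X → ∃ b ∈ C', b.1 = x.1 ∧ h x = f0 b := by
          intro x hx
          have h3 := x.2
          rw [Finset.mem_coe, Finset.mem_union] at h3
          rcases h3 with h3 | h3
          · exact absurd h3 hx
          · rw [Finset.mem_map] at h3
            obtain ⟨y, hy, hyx⟩ := h3
            refine ⟨y, hy, hyx, ?_⟩
            have hxC : x.1 ∈ C := hyx ▸ y.2
            simp only [h]
            rw [dif_neg hx, dif_pos hxC]
            congr 1
            exact Subtype.ext hyx.symm
        have h3 : ∀ x, (hx : x.1 ∈ X) → h x ∈ T → h x ∈ Z := by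
          intro x hx hxT
          rw [h1 x hx] at hxT ⊢
          rw [hZ, mem_biUnion]
          refine ⟨⟨x.1, hXD _ hx⟩, hXs _ hx, ?_⟩
          rw [mem_filter]
          exact ⟨hxT, hgA ⟨x.1, hXD _ hx⟩⟩
        have h4 : ∀ x : (((X ∪ C'.map (Function.Embedding.subtype _) : Finset α)) : Set α),
            x.1 ∉ X → h x ∈ T ∧ h x ∉ Z := by
          intro x hx
          obtain ⟨b, hb, _, hbx⟩ := h2 x hx
          rw [hbx]
          rw [hC', mem_filter] at hb
          exact ⟨Finset.mem_image_of_mem _ (mem_univ _), hb.2⟩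
        refine ⟨h, ?_, ?_⟩
        · intro x y hxy
          by_cases hx : x.1 ∈ X
          · by_cases hy : y.1 ∈ X
            · rw [h1 x hx, h1 y hy] at hxy
              have h6 := congrArg Subtype.val (hg hxy)
              apply Subtype.ext
              exact h6
            · exfalso
              have h5 := h4 y hy
              rw [← hxy] at h5
              exact h5.2 (h3 x hx h5.1)
          · by_cases hy : y.1 ∈ X
            · exfalso
              have h5 := h4 x hx
              rw [hxy] at h5
              exact h5.2 (h3 y hy h5.1)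
            · obtain ⟨b, _, hbx, hb⟩ := h2 x hx
              obtain ⟨b', _, hbx', hb'⟩ := h2 y hy
              rw [hb, hb'] at hxy
              have := hf0 hxy
              apply Subtype.ext
              rw [← hbx, ← hbx', this]
        · intro x
          by_cases hx : x.1 ∈ X
          · rw [h1 x hx]
            exact hgA ⟨x.1, hXD _ hx⟩
          · obtain ⟨b, _, hbx, hb⟩ := h2 x hx
            rw [hb, ← hbx]
            exact hf0A b
    obtain ⟨C2, hC2, hsub⟩ := hI.exists_isBase_superset
    have h5 := Set.encard_le_encard hsub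
    rw [hC2.encard_eq_encard_of_isBase hC, Set.encard_coe_eq_coe_finsetCard,
      Set.encard_coe_eq_coe_finsetCard, Nat.cast_le] at h5
    have h6 : (X ∪ C'.map (Function.Embedding.subtype _)).card = X.card + C'.card := by
      have hdis : Disjoint X (C'.map (Function.Embedding.subtype _)) := by
        rw [Finset.disjoint_left]
        intro x hx hx'
        rw [Finset.mem_map] at hx'
        obtain ⟨y, hy, rfl⟩ := hx'
        exact hXC' y hy hx
      rw [card_union_of_disjoint hdis, card_map (s := C')]
    have h7 : X.card = s.card := by rw [hX, card_map]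
    have h8 : C.card ≤ C'.card + Z.card := by
      have h9 : (univ : Finset {x // x ∈ C}).card = C.card := by
        rw [card_univ, Fintype.card_coe]
      rw [← h9, ← card_filter_add_card_filter_not (fun b => f0 b ∉ Z)]
      have h10 : ((univ : Finset {x // x ∈ C}).filter (fun b => ¬ f0 b ∉ Z)).card ≤ Z.card := by
        rw [← card_image_of_injective _ hf0]
        refine card_le_card ?_
        intro j hj
        rw [Finset.mem_image] at hj
        obtain ⟨b, hb, rfl⟩ := hj
        rw [mem_filter] at hb
        exact not_not.1 hb.2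
      have h11 : C'.card = ((univ : Finset {x // x ∈ C}).filter (fun b => f0 b ∉ Z)).card := by
        rw [hC']
      rw [h11]
      exact Nat.add_le_add_left h10 _
    omega
  rw [Finset.all_card_le_biUnion_card_iff_exists_injective] at hall
  obtain ⟨f, hf, hfT⟩ := hall
  refine ⟨fun x => ⟨f x, (mem_filter.1 (hfT x)).1⟩, ?_, ?_⟩
  · intro x y hxy
    exact hf (congrArg Subtype.val hxy)
  · intro x
    exact (mem_filter.1 (hfT x)).2

end Run7.h638
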