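import Pool.Agent.Run7.h638.Weak

set_option autoImplicit false
set_option linter.unusedSectionVars false

namespace Run7.h638

open Finset Function

variable {α κ : Type*} [Fintype κ] [DecidableEq κ] [DecidableEq α]

lemma numericW {γ t t' m : ℕ} (h1 : 1 ≤ γ) (ht' : 2 * γ ^ 3 ≤ 3 * t' ^ 2)
    (hm : (γ + 1) * (γ + 1) ≤ m * t) (ht : t' + m ≤ t) :
    2 * (γ + 1) ^ 3 ≤ 3 * t ^ 2 := by
  by_contra hlt
  push Not at hlt
  -- work in the integers
  have hlt' : 3 * (t : ℤ) ^ 2 < 2 * ((γ : ℤ) + 1) ^ 3 := by exact_mod_cast hlt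
  have ht'' : 2 * (γ : ℤ) ^ 3 ≤ 3 * (t' : ℤ) ^ 2 := by exact_mod_cast ht'
  have hm' : ((γ : ℤ) + 1) * (γ + 1) ≤ m * t := by exact_mod_cast hm
  have hs : (t' : ℤ) + m ≤ t := by exact_mod_cast ht
  have hγ : (1 : ℤ) ≤ γ := by exact_mod_cast h1
  have h0 : (0 : ℤ) ≤ t' := by positivity
  have h0t : (0 : ℤ) ≤ t := by positivity
  have h0m : (0 : ℤ) ≤ m := by positivity
  -- t * t' ≤ t ^ 2 - (γ + 1) ^ 2
  have ha : (t : ℤ) * t' ≤ t ^ 2 - (γ + 1) ^ 2 := by nlinarith
  have hb : (0 : ℤ) ≤ t * t' := by positivity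
  have hc : ((t : ℤ) * t') ^ 2 ≤ (t ^ 2 - (γ + 1) ^ 2) ^ 2 := by
    apply pow_le_pow_left₀ hb ha
  set s : ℤ := (t : ℤ) ^ 2 with hsdef
  set c : ℤ := (γ : ℤ) with hcdef
  have hd : 2 * c ^ 3 * s ≤ 3 * (s - (c + 1) ^ 2) ^ 2 := by
    have : (2 * c ^ 3) * s ≤ (3 * (t' : ℤ) ^ 2) * s := by
      apply mul_le_mul_of_nonneg_right ht''
      rw [hsdef]; positivity
    nlinarith [this, hc]
  have he : (c + 1) ^ 2 ≤ s := by nlinarith
  -- s lies between (c+1)^2 and (2/3)(c+1)^3
  have hf : (s - (c + 1) ^ 2) * (2 * (c + 1) ^ 3 - 3 * s) ≥ 0 := by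
    apply mul_nonneg <;> linarith
  -- 3 s^2 ≤ (2 (c+1)^3 + 3 (c+1)^2) s - 2 (c+1)^5
  have hg : 3 * s ^ 2 ≤ (2 * (c + 1) ^ 3 + 3 * (c + 1) ^ 2) * s - 2 * (c + 1) ^ 5 := by
    nlinarith [hf]
  have hh : 0 ≤ (2 * (c + 1) ^ 3 - 3 * (c + 1) ^ 2 - 2 * c ^ 3) * s + 3 * (c + 1) ^ 4
      - 2 * (c + 1) ^ 5 := by
    nlinarith [hd, hg]
  have hcoef : 2 * (c + 1) ^ 3 - 3 * (c + 1) ^ 2 - 2 * c ^ 3 = 3 * c ^ 2 - 1 := by ring
  rw [hcoef] at hh
  have hpos : 0 ≤ 3 * c ^ 2 - 1 := by nlinarith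
  have hi : (3 * c ^ 2 - 1) * (3 * s) ≤ (3 * c ^ 2 - 1) * (2 * (c + 1) ^ 3) :=
    mul_le_mul_of_nonneg_left hlt'.le hpos
  have hj : 3 * ((3 * c ^ 2 - 1) * s) = (3 * c ^ 2 - 1) * (3 * s) := by ring
  have hk : 0 ≤ (3 * c ^ 2 - 1) * (2 * (c + 1) ^ 3) + 9 * (c + 1) ^ 4 - 6 * (c + 1) ^ 5 := by
    linarith
  have hl : (3 * c ^ 2 - 1) * (2 * (c + 1) ^ 3) + 9 * (c + 1) ^ 4 - 6 * (c + 1) ^ 5 =
      (c + 1) ^ 3 * (1 - 3 * c) := by ring
  rw [hl] at hk
  have hm3 : 0 < (c + 1) ^ 3 := by positivity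
  nlinarith

section

variable {ι : Type*} [Fintype ι] [DecidableEq ι]
variable {M : Matroid α} {B : ι → Finset α} {π : α → κ} {u : κ → ℕ} {n : ℕ}

/-- the lower bound for the set of critical colours in the weak setting -/
theorem Pre.bound (S : Pre M B π u n) : ∀ (γ : ℕ) (z : κ → ℕ) (g0 : ι → α),
    NF M B π u z → Node M B π u z g0 → ∑ j, z j + Fintype.card ι + (γ + 1) = n + 1 →
    2 * (γ + 1) ^ 3 ≤ 3 * ((Q M B π u z g0).card - 1) ^ 2 := by
  intro γ
  induction γ with
  | zero =>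
    intro z g0 hNF N hγ
    have := S.base_bound hNF N hγ
    have h2 : 1 ≤ (Q M B π u z g0).card - 1 := by omega
    nlinarith
  | succ γ ih =>
    intro z g0 hNF N hγ
    obtain ⟨i0, hi0, hm⟩ := S.exists_class hNF N hγ (by omega)
    obtain ⟨z', g', hNF', N', hγ', hq⟩ :=
      S.reserve hNF N (γ := γ + 1) hγ (by omega) hi0 rfl
    have h1 := ih z' g' hNF' N' hγ'
    have h3 := S.base_bound hNF' N' hγ'
    exact numericW (γ := γ + 1) (by omega) h1 hm (by omega)

end

/-- the main combinatorial statement in the weak setting -/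
theorem exists_transversal_weak {M : Matroid α} {π : α → κ} {u : κ → ℕ} :
    ∀ (k d : ℕ) (B : Fin k → Finset α), Pre M B π u (k + d) →
      3 * (k - 1) ^ 2 < 2 * (d + 1) ^ 3 →
      ∃ g : Fin k → α, (∀ i, g i ∈ B i) ∧ OK π u 0 g ∧ M.Indep (Set.range g) := by
  intro k
  induction k with
  | zero =>
    intro d B S hk
    refine ⟨Fin.elim0, fun i => i.elim0, fun j => ?_, ?_⟩
    · simp [cnt]
    · have : Set.range (Fin.elim0 : Fin 0 → α) = ∅ := by
        ext y; simp
      rw [this]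
      exact M.empty_indep
  | succ k ih =>
    intro d B S hk
    by_contra hcon
    -- transversal of the first k colours
    have S' : Pre M (fun i : Fin k => B i.castSucc) π u (k + (d + 1)) := by
      refine ⟨fun i => S.indep _, fun i j hij => S.disj _ _ ?_, fun i j => S.cls _ _, ?_⟩
      · intro h
        exact hij (Fin.castSucc_injective k h)
      · intro i
        rw [S.card]; ring
    have hk' : 3 * (k - 1) ^ 2 < 2 * (d + 1 + 1) ^ 3 := by
      have h1 : (k - 1) ^ 2 ≤ (k + 1 - 1) ^ 2 := Nat.pow_le_pow_left (by omega) 2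
      have h2 : (d + 1) ^ 3 ≤ (d + 1 + 1) ^ 3 := Nat.pow_le_pow_left (by omega) 3
      omega
    obtain ⟨g, hg, hgok, hgI⟩ := ih (d + 1) _ S' hk'
    obtain ⟨x0, hx0⟩ : (B (Fin.last k)).Nonempty := by
      rw [← Finset.card_pos, S.card]; omega
    -- a preliminary function to speak about counts without the last colour
    set g1 : Fin (k + 1) → α := Fin.snoc g x0 with hg1
    have hcast1 : ∀ i : Fin k, g1 i.castSucc = g i := fun i => by simp [hg1]
    have hcx1 : ∀ l, cntx π g1 (Fin.last k) l = cnt π g l := by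
      intro l
      unfold cntx cnt
      rw [← card_map (s := univ.filter (fun i : Fin k => π (g i) = l)) Fin.castSuccEmb]
      refine congrArg Finset.card ?_
      ext i
      simp only [mem_filter, mem_univ, true_and, mem_map, Fin.castSuccEmb_apply]
      constructor
      · rintro ⟨h1, h2⟩
        obtain ⟨i', rfl⟩ := Fin.exists_castSucc_eq.2 h1
        exact ⟨i', by rw [← hcast1]; exact h2, rfl⟩
      · rintro ⟨i', h1, rfl⟩
        exact ⟨(Fin.castSucc_lt_last i').ne, by rw [hcast1]; exact h1⟩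
    have hav := S.card_avail (fun _ => 0) g1 (Fin.last k)
    rw [Fintype.card_fin, sum_const_zero] at hav
    obtain ⟨x, hx⟩ := Finset.card_pos.1 (by omega :
      0 < ((B (Fin.last k)).filter
        (fun x => 0 + cntx π g1 (Fin.last k) (π x) < u (π x))).card)
    rw [mem_filter] at hx
    set g0 : Fin (k + 1) → α := Function.update g1 (Fin.last k) x with hg0
    have hlast : g0 (Fin.last k) = x := by simp [hg0]
    have hcast : ∀ i : Fin k, g0 i.castSucc = g i := fun i => by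
      rw [hg0, Function.update_of_ne (Fin.castSucc_lt_last i).ne, hcast1]
    have himg : g0 '' {Fin.last k}ᶜ = Set.range g := by
      ext y
      simp only [Set.mem_image, Set.mem_compl_iff, Set.mem_singleton_iff, Set.mem_range]
      constructor
      · rintro ⟨i, h1, rfl⟩
        obtain ⟨i', rfl⟩ := Fin.exists_castSucc_eq.2 h1
        exact ⟨i', (hcast i').symm⟩
      · rintro ⟨i', rfl⟩
        exact ⟨i'.castSucc, (Fin.castSucc_lt_last i').ne, hcast i'⟩
    have N : Node M B π u (fun _ => 0) g0 := by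
      refine ⟨fun i => ?_, ?_, Fin.last k, ?_⟩
      · induction i using Fin.lastCases with
        | last => rw [hlast]; exact hx.1
        | cast i => rw [hcast]; exact hg i
      · refine ok_update (z := fun _ => 0) (fun l => ?_) hx.2
        have h1 := hgok l
        rw [hcx1 l]
        simpa using h1
      · unfold Crit
        rw [himg]
        exact hgI
    have hNF : NF M B π u (fun _ => 0) := by
      intro f hf hok hI
      exact hcon ⟨f, hf, hok, hI⟩
    have hb := S.bound d (fun _ => 0) g0 hNF N (by simp; ring)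
    have hle : (Q M B π u (fun _ => 0) g0).card ≤ k + 1 := by
      calc _ ≤ Fintype.card (Fin (k + 1)) := card_le_univ _
        _ = _ := Fintype.card_fin _
    have h9 : ((Q M B π u (fun _ => 0) g0).card - 1) ^ 2 ≤ (k + 1 - 1) ^ 2 :=
      Nat.pow_le_pow_left (by omega) 2
    omega

end Run7.h638
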