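import Mathlib

set_option autoImplicit false
set_option linter.unusedSectionVars false

namespace Run7.h638

open Finset Function

variable {α ι κ : Type*} [Fintype ι] [DecidableEq ι] [Fintype κ] [DecidableEq κ] [DecidableEq α]

/-- number of colours whose chosen element lies in class `j` -/
def cnt (π : α → κ) (g : ι → α) (j : κ) : ℕ := (univ.filter (fun i => π (g i) = j)).card

/-- the same count without colour `c` -/
def cntx (π : α → κ) (g : ι → α) (c : ι) (j : κ) : ℕ :=
  (univ.filter (fun i => i ≠ c ∧ π (g i) = j)).card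

def OK (π : α → κ) (u z : κ → ℕ) (g : ι → α) : Prop := ∀ j, z j + cnt π g j ≤ u j

def Crit (M : Matroid α) (g : ι → α) (c : ι) : Prop := M.Indep (g '' {c}ᶜ)

def Step (M : Matroid α) (B : ι → Finset α) (π : α → κ) (u z : κ → ℕ)
    (g g' : ι → α) : Prop :=
  ∃ c x, x ∈ B c ∧ Crit M g c ∧ g' = Function.update g c x ∧ OK π u z g'

def Reach (M : Matroid α) (B : ι → Finset α) (π : α → κ) (u z : κ → ℕ)
    (g g' : ι → α) : Prop := Relation.ReflTransGen (Step M B π u z) g g'

structure Node (M : Matroid α) (B : ι → Finset α) (π : α → κ) (u z : κ → ℕ)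
    (g : ι → α) : Prop where
  mem : ∀ i, g i ∈ B i
  ok : OK π u z g
  crit : ∃ c, Crit M g c

structure Setup (M : Matroid α) (B : ι → Finset α) (π : α → κ) (u : κ → ℕ) (n : ℕ) : Prop where
  indep : ∀ i, M.Indep (B i : Set α)
  disj : ∀ i j, i ≠ j → Disjoint (B i) (B j)
  cls : ∀ i j, ((B i).filter (fun x => π x = j)).card = u j
  sum : ∑ j, u j = n

/-- no full transversal compatible with the reservation `z` -/
def NF (M : Matroid α) (B : ι → Finset α) (π : α → κ) (u z : κ → ℕ) : Prop :=
  ∀ g : ι → α, (∀ i, g i ∈ B i) → OK π u z g → ¬ M.Indep (Set.range g)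

lemma cnt_eq (π : α → κ) (g : ι → α) (c : ι) (j : κ) :
    cnt π g j = cntx π g c j + (if π (g c) = j then 1 else 0) := by
  unfold cnt cntx
  split_ifs with h
  · have : (univ.filter (fun i => π (g i) = j)) =
        insert c (univ.filter (fun i => i ≠ c ∧ π (g i) = j)) := by
      ext i
      simp only [mem_filter, mem_univ, true_and, mem_insert]
      constructor
      · intro hi
        by_cases hic : i = c
        · exact Or.inl hic
        · exact Or.inr ⟨hic, hi⟩
      · rintro (rfl | hi)
        · exact h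
        · exact hi.2
    rw [this, card_insert_of_notMem (by simp)]
  · have : (univ.filter (fun i => π (g i) = j)) =
        (univ.filter (fun i => i ≠ c ∧ π (g i) = j)) := by
      ext i
      simp only [mem_filter, mem_univ, true_and]
      constructor
      · intro hi
        exact ⟨fun hic => h (hic ▸ hi), hi⟩
      · intro hi
        exact hi.2
    rw [this, add_zero]

lemma cntx_update (π : α → κ) (g : ι → α) (c : ι) (x : α) (j : κ) :
    cntx π (Function.update g c x) c j = cntx π g c j := by
  unfold cntx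
  congr 1
  ext i
  simp only [mem_filter, mem_univ, true_and]
  constructor
  · rintro ⟨h1, h2⟩
    rw [Function.update_of_ne h1] at h2
    exact ⟨h1, h2⟩
  · rintro ⟨h1, h2⟩
    refine ⟨h1, ?_⟩
    rw [Function.update_of_ne h1]
    exact h2

lemma sum_cntx (π : α → κ) (g : ι → α) (c : ι) :
    ∑ j, cntx π g c j + 1 = Fintype.card ι := by
  have h : ∑ j, cntx π g c j = (univ.filter (fun i : ι => i ≠ c)).card := by
    unfold cntx
    rw [card_eq_sum_card_fiberwise (f := fun i => π (g i)) (t := univ) (by intro i _; simp)]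
    refine sum_congr rfl fun j _ => ?_
    congr 1
    ext i
    simp [and_comm]
  rw [h]
  have : (univ.filter (fun i : ι => i ≠ c)) = univ.erase c := by
    ext i; simp
  rw [this, card_erase_of_mem (mem_univ c), card_univ]
  have : 0 < Fintype.card ι := Fintype.card_pos_iff.2 ⟨c⟩
  omega

lemma sum_cnt (π : α → κ) (g : ι → α) : ∑ j, cnt π g j = Fintype.card ι := by
  unfold cnt
  rw [← card_univ, card_eq_sum_card_fiberwise (f := fun i => π (g i)) (t := univ)
    (by intro i _; simp)]

section

variable {M : Matroid α} {B : ι → Finset α} {π : α → κ} {u z : κ → ℕ} {n : ℕ}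

lemma Setup.card (S : Setup M B π u n) (i : ι) : (B i).card = n := by
  rw [card_eq_sum_card_fiberwise (f := π) (t := univ) (by intro i _; simp), ← S.sum]
  exact sum_congr rfl fun j _ => S.cls i j

lemma Setup.inj (S : Setup M B π u n) {g : ι → α} (hg : ∀ i, g i ∈ B i) : Injective g := by
  intro i j hij
  by_contra hne
  exact Finset.disjoint_left.1 (S.disj i j hne) (hg i) (hij ▸ hg j)

lemma crit_update {g : ι → α} {c : ι} (x : α) (h : Crit M g c) :
    Crit M (Function.update g c x) c := by
  unfold Crit at *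
  have : Function.update g c x '' {c}ᶜ = g '' {c}ᶜ := by
    refine Set.image_congr fun i hi => ?_
    rw [Function.update_of_ne hi]
  rwa [this]

lemma Node.step {g g' : ι → α} (N : Node M B π u z g) (h : Step M B π u z g g') :
    Node M B π u z g' := by
  obtain ⟨c, x, hx, hc, rfl, hok⟩ := h
  refine ⟨fun i => ?_, hok, c, crit_update x hc⟩
  by_cases hi : i = c
  · subst hi; simpa using hx
  · rw [Function.update_of_ne hi]; exact N.mem i

lemma Node.reach {g g' : ι → α} (N : Node M B π u z g) (h : Reach M B π u z g g') :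
    Node M B π u z g' := by
  induction h with
  | refl => exact N
  | tail _ hs ih => exact ih.step hs

open Classical in
/-- the set of colours critical at some reachable function -/
noncomputable def Q (M : Matroid α) (B : ι → Finset α) (π : α → κ) (u z : κ → ℕ)
    (g0 : ι → α) : Finset ι :=
  univ.filter (fun c => ∃ g, Reach M B π u z g0 g ∧ Crit M g c)

lemma mem_Q {g0 : ι → α} {c : ι} :
    c ∈ Q M B π u z g0 ↔ ∃ g, Reach M B π u z g0 g ∧ Crit M g c := by
  simp [Q]

/-- L1 -/
lemma mem_closure_of_crit (S : Setup M B π u n) (hNF : NF M B π u z) {g0 g : ι → α}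
    (N : Node M B π u z g0) (hr : Reach M B π u z g0 g) {c : ι} (hc : Crit M g c) :
    g c ∈ M.closure (g '' ((Q M B π u z g0 : Set ι) \ {c})) := by
  have Ng := N.reach hr
  have hinj := S.inj Ng.mem
  have hdep := hNF g Ng.mem Ng.ok
  have hrange : Set.range g = insert (g c) (g '' {c}ᶜ) := by
    ext y
    simp only [Set.mem_range, Set.mem_insert_iff, Set.mem_image, Set.mem_compl_iff,
      Set.mem_singleton_iff]
    constructor
    · rintro ⟨i, rfl⟩
      by_cases hi : i = c
      · exact Or.inl (by rw [hi])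
      · exact Or.inr ⟨i, hi, rfl⟩
    · rintro (rfl | ⟨i, _, rfl⟩)
      · exact ⟨c, rfl⟩
      · exact ⟨i, rfl⟩
  have hnot : g c ∉ g '' {c}ᶜ := by
    rintro ⟨i, hi, hic⟩
    exact hi (hinj hic)
  have hgE : g c ∈ M.E := (S.indep c).subset_ground (Ng.mem c)
  have hcl : g c ∈ M.closure (g '' {c}ᶜ) := by
    have hc' : M.Indep (g '' {c}ᶜ) := hc
    rw [hc'.mem_closure_iff_of_notMem hnot]
    rw [← hrange]
    refine ⟨hdep, ?_⟩
    rw [hrange]
    exact Set.insert_subset hgE hc'.subset_ground
  have hcirc := Matroid.Indep.fundCircuit_isCircuit hc hcl hnot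
  have hmem := hcirc.mem_closure_sdiff_singleton_of_mem (M.mem_fundCircuit (g c) (g '' {c}ᶜ))
  refine M.closure_subset_closure ?_ hmem
  rintro y ⟨hy1, hy2⟩
  have hy3 := M.fundCircuit_subset_insert _ _ hy1
  rcases hy3 with hy3 | ⟨i, hi, rfl⟩
  · exact absurd hy3 hy2
  · refine ⟨i, ⟨?_, hi⟩, rfl⟩
    rw [Matroid.Indep.mem_fundCircuit_iff hc hcl hnot] at hy1
    rw [← hrange] at hy1
    simp only [Finset.mem_coe, mem_Q]
    refine ⟨g, hr, ?_⟩
    unfold Crit
    convert hy1 using 1
    ext y
    simp only [Set.mem_image, Set.mem_compl_iff, Set.mem_singleton_iff, Set.mem_sdiff,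
      Set.mem_range]
    constructor
    · rintro ⟨l, hl, rfl⟩
      exact ⟨⟨l, rfl⟩, fun h => hl (hinj h)⟩
    · rintro ⟨⟨l, rfl⟩, h⟩
      exact ⟨l, fun hl => h (by rw [hl]), rfl⟩

lemma closure_Q_eq (S : Setup M B π u n) (hNF : NF M B π u z) {g0 g : ι → α}
    (N : Node M B π u z g0) (hr : Reach M B π u z g0 g) {c : ι} (hc : Crit M g c) :
    M.closure (g '' (Q M B π u z g0 : Set ι)) =
      M.closure (g '' ((Q M B π u z g0 : Set ι) \ {c})) := by
  have h1 := mem_closure_of_crit S hNF N hr hc
  have hcQ : c ∈ (Q M B π u z g0 : Set ι) := by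
    simp only [Finset.mem_coe, mem_Q]
    exact ⟨g, hr, hc⟩
  refine Set.Subset.antisymm ?_ (M.closure_subset_closure (Set.image_mono Set.sdiff_subset))
  apply Matroid.closure_subset_closure_of_subset_closure
  rintro y ⟨i, hi, rfl⟩
  by_cases hic : i = c
  · rw [hic]; exact h1
  · have Ng := N.reach hr
    refine M.mem_closure_of_mem' ⟨i, ⟨hi, hic⟩, rfl⟩ ((S.indep i).subset_ground (Ng.mem i))

/-- L2: the closure is the same at each reachable function -/
lemma closure_const (S : Setup M B π u n) (hNF : NF M B π u z) {g0 g : ι → α}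
    (N : Node M B π u z g0) (hr : Reach M B π u z g0 g) :
    M.closure (g '' (Q M B π u z g0 : Set ι)) = M.closure (g0 '' (Q M B π u z g0 : Set ι)) := by
  induction hr with
  | refl => rfl
  | tail hr hs ih =>
    rename_i g₁ g₂
    rw [← ih]
    have hr2 := hr.tail hs
    obtain ⟨c, x, hx, hc, rfl, hok⟩ := hs
    rw [closure_Q_eq S hNF N hr2 (crit_update x hc), closure_Q_eq S hNF N hr hc]
    congr 1
    refine Set.image_congr fun i hi => ?_
    rw [Function.update_of_ne hi.2]

/-- L3 -/
lemma mem_F_of_ok (S : Setup M B π u n) (hNF : NF M B π u z) {g0 g : ι → α}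
    (N : Node M B π u z g0) (hr : Reach M B π u z g0 g) {c : ι} (hc : Crit M g c)
    {x : α} (hx : x ∈ B c) (hok : OK π u z (Function.update g c x)) :
    x ∈ M.closure (g0 '' (Q M B π u z g0 : Set ι)) := by
  have hr2 : Reach M B π u z g0 (Function.update g c x) := hr.tail ⟨c, x, hx, hc, rfl, hok⟩
  rw [← closure_const S hNF N hr2]
  have h1 := mem_closure_of_crit S hNF N hr2 (crit_update x hc)
  rw [Function.update_self] at h1
  exact M.closure_subset_closure (Set.image_mono Set.sdiff_subset) h1

open Classical in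
/-- L4 -/
lemma card_inter_F (S : Setup M B π u n) (hNF : NF M B π u z) {g0 : ι → α}
    (N : Node M B π u z g0) (c : ι) :
    ((B c).filter (fun x => x ∈ M.closure (g0 '' (Q M B π u z g0 : Set ι)))).card + 1 ≤
      (Q M B π u z g0).card := by
  obtain ⟨c0, hc0⟩ := N.crit
  have hc0Q : c0 ∈ Q M B π u z g0 := mem_Q.2 ⟨g0, Relation.ReflTransGen.refl, hc0⟩
  have hle : ((((B c).filter (fun x => x ∈ M.closure (g0 '' (Q M B π u z g0 : Set ι)))) :
      Finset α) : Set α).encard ≤ (((Q M B π u z g0).erase c0 : Finset ι) : Set ι).encard := by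
    have hI : M.Indep ((((B c).filter (fun x =>
        x ∈ M.closure (g0 '' (Q M B π u z g0 : Set ι)))) : Finset α) : Set α) :=
      (S.indep c).subset (by
        intro x hx
        simp only [coe_filter, Set.mem_ofPred_eq] at hx
        exact hx.1)
    rw [← hI.eRk_eq_encard]
    calc M.eRk _ ≤ M.eRk (M.closure (g0 '' (Q M B π u z g0 : Set ι))) := by
          apply M.eRk_mono
          intro x hx
          simp only [coe_filter, Set.mem_ofPred_eq] at hx
          exact hx.2
      _ = M.eRk (M.closure (g0 '' ((Q M B π u z g0 : Set ι) \ {c0}))) := by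
          rw [closure_Q_eq S hNF N Relation.ReflTransGen.refl hc0]
      _ = M.eRk (g0 '' ((Q M B π u z g0 : Set ι) \ {c0})) := by rw [Matroid.eRk_closure_eq]
      _ ≤ (g0 '' ((Q M B π u z g0 : Set ι) \ {c0})).encard := M.eRk_le_encard _
      _ ≤ ((Q M B π u z g0 : Set ι) \ {c0}).encard := Set.encard_image_le _ _
      _ = _ := by rw [Finset.coe_erase]
  rw [Set.encard_coe_eq_coe_finsetCard, Set.encard_coe_eq_coe_finsetCard, Nat.cast_le,
    card_erase_of_mem hc0Q] at hle
  have : 0 < (Q M B π u z g0).card := Finset.card_pos.2 ⟨c0, hc0Q⟩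
  omega

/-- L5 -/
lemma tight_of_blocked (S : Setup M B π u n) (hNF : NF M B π u z) {g0 g : ι → α}
    (N : Node M B π u z g0) (hr : Reach M B π u z g0 g) {c : ι} (hc : Crit M g c)
    {x : α} (hx : x ∈ B c) (hxF : x ∉ M.closure (g0 '' (Q M B π u z g0 : Set ι))) :
    z (π x) + cntx π g c (π x) = u (π x) := by
  have hnok : ¬ OK π u z (Function.update g c x) := fun h => hxF (mem_F_of_ok S hNF N hr hc hx h)
  have hok := (N.reach hr).ok
  unfold OK at hnok
  push Not at hnok
  obtain ⟨j, hj⟩ := hnok
  rw [cnt_eq π _ c j, cntx_update, Function.update_self] at hj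
  have h2 := hok j
  rw [cnt_eq π _ c j] at h2
  split_ifs at hj with h3
  · subst h3
    split_ifs at h2 <;> omega
  · split_ifs at h2 <;> omega

open Classical in
/-- the part of `B c` outside the closed set -/
noncomputable def blk (M : Matroid α) (B : ι → Finset α) (π : α → κ) (u z : κ → ℕ)
    (g0 : ι → α) (c : ι) : Finset α :=
  (B c).filter (fun x => x ∉ M.closure (g0 '' (Q M B π u z g0 : Set ι)))

/-- the blocked classes of colour `c` -/
noncomputable def J (M : Matroid α) (B : ι → Finset α) (π : α → κ) (u z : κ → ℕ)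
    (g0 : ι → α) (c : ι) : Finset κ := (blk M B π u z g0 c).image π

/-- free capacity with respect to the colours that never become critical -/
noncomputable def rho (M : Matroid α) (B : ι → Finset α) (π : α → κ) (u z : κ → ℕ)
    (g0 : ι → α) (j : κ) : ℕ :=
  u j - (z j + (univ.filter (fun i => i ∉ Q M B π u z g0 ∧ π (g0 i) = j)).card)

lemma tight_J (S : Setup M B π u n) (hNF : NF M B π u z) {g0 g : ι → α}
    (N : Node M B π u z g0) (hr : Reach M B π u z g0 g) {c : ι} (hc : Crit M g c)
    {j : κ} (hj : j ∈ J M B π u z g0 c) :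
    z j + cntx π g c j = u j := by
  obtain ⟨x, hx, rfl⟩ := Finset.mem_image.1 hj
  simp only [blk, mem_filter] at hx
  exact tight_of_blocked S hNF N hr hc hx.1 hx.2

/-- L6 -/
lemma sum_J (S : Setup M B π u n) (hNF : NF M B π u z) {g0 : ι → α}
    (N : Node M B π u z g0) (c : ι) :
    n + 1 ≤ ∑ j ∈ J M B π u z g0 c, u j + (Q M B π u z g0).card := by
  classical
  have h1 := card_inter_F S hNF N c
  have h2 : ((B c).filter (fun x => x ∈ M.closure (g0 '' (Q M B π u z g0 : Set ι)))).card +
      (blk M B π u z g0 c).card = n := by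
    rw [← S.card c]
    unfold blk
    exact card_filter_add_card_filter_not _
  have h3 : (blk M B π u z g0 c).card ≤ ∑ j ∈ J M B π u z g0 c, u j := by
    rw [card_eq_sum_card_fiberwise (f := π) (t := J M B π u z g0 c)
      (by intro i hi; exact Finset.mem_coe.2 (Finset.mem_image_of_mem _ hi))]
    refine sum_le_sum fun j _ => ?_
    rw [← S.cls c j]
    refine card_le_card ?_
    intro x hx
    simp only [blk, mem_filter] at hx ⊢
    exact ⟨hx.1.1, hx.2⟩
  omega

lemma not_mem_Q_const {g0 g : ι → α} (hr : Reach M B π u z g0 g) {i : ι}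
    (hi : i ∉ Q M B π u z g0) : g i = g0 i := by
  induction hr with
  | refl => rfl
  | tail hr hs ih =>
    rename_i g₁ g₂
    obtain ⟨c, x, hx, hc, rfl, hok⟩ := hs
    have : i ≠ c := by
      rintro rfl
      exact hi (mem_Q.2 ⟨g₁, hr, hc⟩)
    rw [Function.update_of_ne this, ih]

lemma cnt_split {g0 g : ι → α} (hr : Reach M B π u z g0 g) (j : κ) :
    cnt π g j = (univ.filter (fun i => i ∉ Q M B π u z g0 ∧ π (g0 i) = j)).card +
      (univ.filter (fun i => i ∈ Q M B π u z g0 ∧ π (g i) = j)).card := by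
  unfold cnt
  rw [← card_union_of_disjoint]
  · congr 1
    ext i
    simp only [mem_filter, mem_univ, true_and, mem_union]
    by_cases hi : i ∈ Q M B π u z g0
    · simp [hi]
    · simp [hi, not_mem_Q_const hr hi]
  · rw [Finset.disjoint_left]
    intro i hi hi2
    simp only [mem_filter, mem_univ, true_and] at hi hi2
    exact hi.1 hi2.1

lemma rho_eq {g0 : ι → α} (N : Node M B π u z g0) (j : κ) :
    rho M B π u z g0 j + z j +
      (univ.filter (fun i => i ∉ Q M B π u z g0 ∧ π (g0 i) = j)).card = u j := by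
  have h1 := N.ok j
  rw [cnt_split (M := M) (B := B) (u := u) (z := z) (g0 := g0) Relation.ReflTransGen.refl] at h1
  unfold rho
  omega

lemma sum_rho (S : Setup M B π u n) {g0 : ι → α} (N : Node M B π u z g0) :
    ∑ j, rho M B π u z g0 j + ∑ j, z j + Fintype.card ι = n + (Q M B π u z g0).card := by
  have h1 : ∑ j, (univ.filter (fun i => i ∉ Q M B π u z g0 ∧ π (g0 i) = j)).card =
      (univ.filter (fun i => i ∉ Q M B π u z g0)).card := by
    rw [card_eq_sum_card_fiberwise (f := fun i => π (g0 i)) (t := univ) (by intro i _; simp)]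
    refine sum_congr rfl fun j _ => ?_
    congr 1
    ext i
    simp
  have h2 : (univ.filter (fun i => i ∉ Q M B π u z g0)).card + (Q M B π u z g0).card =
      Fintype.card ι := by
    rw [← card_univ]
    have : (univ.filter (fun i => i ∉ Q M B π u z g0)) = univ \ Q M B π u z g0 := by
      ext i; simp
    rw [this, card_sdiff_add_card_eq_card (subset_univ _)]
  have h3 : ∑ j, rho M B π u z g0 j + ∑ j, z j +
      ∑ j, (univ.filter (fun i => i ∉ Q M B π u z g0 ∧ π (g0 i) = j)).card = n := by
    rw [← S.sum, ← sum_add_distrib, ← sum_add_distrib]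
    exact sum_congr rfl fun j _ => rho_eq N j
  omega

/-- L7 -/
lemma sum_J_rho (S : Setup M B π u n) (hNF : NF M B π u z) {g0 : ι → α}
    (N : Node M B π u z g0) {γ : ℕ} (hγ : ∑ j, z j + Fintype.card ι + γ = n + 1) (c : ι) :
    γ ≤ ∑ j ∈ J M B π u z g0 c, rho M B π u z g0 j := by
  have h1 := sum_J S hNF N c
  have h2 := sum_rho S N
  have h3 : ∑ j, rho M B π u z g0 j = ∑ j ∈ J M B π u z g0 c, rho M B π u z g0 j +
      ∑ j ∈ (J M B π u z g0 c)ᶜ, rho M B π u z g0 j := by
    rw [sum_add_sum_compl]
  have h4 : ∑ j ∈ (J M B π u z g0 c)ᶜ, rho M B π u z g0 j ≤ ∑ j ∈ (J M B π u z g0 c)ᶜ, u j := by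
    refine sum_le_sum fun j _ => ?_
    have := rho_eq N j
    omega
  have h5 : ∑ j ∈ J M B π u z g0 c, u j + ∑ j ∈ (J M B π u z g0 c)ᶜ, u j = n := by
    rw [sum_add_sum_compl, S.sum]
  omega

/-- base inequality -/
lemma base_bound (S : Setup M B π u n) (hNF : NF M B π u z) {g0 : ι → α}
    (N : Node M B π u z g0) {γ : ℕ} (hγ : ∑ j, z j + Fintype.card ι + γ = n + 1) :
    γ + 1 ≤ (Q M B π u z g0).card := by
  obtain ⟨c, hc⟩ := N.crit
  have hcQ : c ∈ Q M B π u z g0 := mem_Q.2 ⟨g0, Relation.ReflTransGen.refl, hc⟩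
  have h1 := sum_J_rho S hNF N hγ c
  have h2 : ∑ j ∈ J M B π u z g0 c, rho M B π u z g0 j ≤
      ∑ j ∈ J M B π u z g0 c,
        (((Q M B π u z g0).erase c).filter (fun i => π (g0 i) = j)).card := by
    refine sum_le_sum fun j hj => ?_
    have h3 := tight_J S hNF N Relation.ReflTransGen.refl hc hj
    have h4 := rho_eq N j
    have h5 : cntx π g0 c j ≤
        (univ.filter (fun i => i ∉ Q M B π u z g0 ∧ π (g0 i) = j)).card +
        (((Q M B π u z g0).erase c).filter (fun i => π (g0 i) = j)).card := by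
      rw [← card_union_of_disjoint]
      · unfold cntx
        refine card_le_card ?_
        intro i hi
        simp only [mem_filter, mem_univ, true_and, mem_union, mem_erase] at hi ⊢
        by_cases hi2 : i ∈ Q M B π u z g0
        · exact Or.inr ⟨⟨hi.1, hi2⟩, hi.2⟩
        · exact Or.inl ⟨hi2, hi.2⟩
      · rw [Finset.disjoint_left]
        intro i hi hi2
        simp only [mem_filter, mem_univ, true_and, mem_erase] at hi hi2
        exact hi.1 hi2.1.2
    omega
  have h6 : ∑ j ∈ J M B π u z g0 c,
        (((Q M B π u z g0).erase c).filter (fun i => π (g0 i) = j)).card ≤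
        ((Q M B π u z g0).erase c).card := by
    rw [← card_biUnion]
    · refine card_le_card ?_
      intro i hi
      simp only [mem_biUnion, mem_filter] at hi
      obtain ⟨_, _, hi, _⟩ := hi
      exact hi
    · intro j _ j' _ hjj'
      rw [Function.onFun, Finset.disjoint_left]
      intro i hi hi2
      simp only [mem_filter] at hi hi2
      exact hjj' (hi.2.symm.trans hi2.2)
  rw [card_erase_of_mem hcQ] at h6
  have : 0 < (Q M B π u z g0).card := Finset.card_pos.2 ⟨c, hcQ⟩
  omega

/-- L8: averaging -/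
lemma exists_class (S : Setup M B π u n) (hNF : NF M B π u z) {g0 : ι → α}
    (N : Node M B π u z g0) {γ : ℕ} (hγ : ∑ j, z j + Fintype.card ι + (γ + 1) = n + 1) :
    ∃ j, 0 < rho M B π u z g0 j ∧
      (Q M B π u z g0).card * (γ + 1) ≤
        ((Q M B π u z g0).filter (fun c => j ∈ J M B π u z g0 c)).card *
          ((Q M B π u z g0).card + γ) := by
  by_contra hcon
  push Not at hcon
  have h1 : ∑ c ∈ Q M B π u z g0, (γ + 1) ≤
      ∑ c ∈ Q M B π u z g0, ∑ j ∈ J M B π u z g0 c, rho M B π u z g0 j :=
    sum_le_sum fun c _ => sum_J_rho S hNF N hγ c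
  have h2 : ∑ c ∈ Q M B π u z g0, ∑ j ∈ J M B π u z g0 c, rho M B π u z g0 j =
      ∑ j, ((Q M B π u z g0).filter (fun c => j ∈ J M B π u z g0 c)).card *
        rho M B π u z g0 j := by
    have h3 : ∀ c, ∑ j ∈ J M B π u z g0 c, rho M B π u z g0 j =
        ∑ j, if j ∈ J M B π u z g0 c then rho M B π u z g0 j else 0 := by
      intro c
      rw [← sum_filter]
      congr 1
      ext j; simp
    simp_rw [h3]
    rw [sum_comm]
    refine sum_congr rfl fun j _ => ?_
    rw [← sum_filter, sum_const, smul_eq_mul]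
  have h4 : ∑ j, rho M B π u z g0 j = (Q M B π u z g0).card + γ := by
    have := sum_rho S N
    omega
  rw [sum_const, smul_eq_mul, h2] at h1
  have hQ : 0 < (Q M B π u z g0).card := by
    obtain ⟨c, hc⟩ := N.crit
    exact Finset.card_pos.2 ⟨c, mem_Q.2 ⟨g0, Relation.ReflTransGen.refl, hc⟩⟩
  have h5 : (∑ j, ((Q M B π u z g0).filter (fun c => j ∈ J M B π u z g0 c)).card *
        rho M B π u z g0 j) * ((Q M B π u z g0).card + γ) <
        ∑ j, ((Q M B π u z g0).card * (γ + 1)) * rho M B π u z g0 j := by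
    rw [sum_mul]
    have hex : ∃ j ∈ (univ : Finset κ), 0 < rho M B π u z g0 j := by
      by_contra hno
      push Not at hno
      have : ∑ j, rho M B π u z g0 j ≤ ∑ j : κ, 0 := sum_le_sum hno
      rw [sum_const_zero] at this
      omega
    refine sum_lt_sum (fun j _ => ?_) ?_
    · rcases Nat.eq_zero_or_pos (rho M B π u z g0 j) with h | h
      · rw [h]; simp
      · have := hcon j h
        calc _ = (((Q M B π u z g0).filter (fun c => j ∈ J M B π u z g0 c)).card *
              ((Q M B π u z g0).card + γ)) * rho M B π u z g0 j := by ring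
          _ ≤ _ := Nat.mul_le_mul_right _ this.le
    · obtain ⟨j, hj, hpos⟩ := hex
      refine ⟨j, hj, ?_⟩
      have := hcon j hpos
      calc _ = (((Q M B π u z g0).filter (fun c => j ∈ J M B π u z g0 c)).card *
              ((Q M B π u z g0).card + γ)) * rho M B π u z g0 j := by ring
          _ < _ := Nat.mul_lt_mul_of_pos_right this hpos
  rw [← mul_sum, h4] at h5
  have h6 := Nat.mul_le_mul_right ((Q M B π u z g0).card + γ) h1
  omega

/-- L9 -/
lemma exists_room (_S : Setup M B π u n) {g0 : ι → α}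
    (N : Node M B π u z g0) {j : κ} (hj : 0 < rho M B π u z g0 j) :
    ∃ g c, Reach M B π u z g0 g ∧ Crit M g c ∧ z j + cntx π g c j < u j := by
  by_contra hcon
  push Not at hcon
  have key : ∀ g, Reach M B π u z g0 g → ∀ c, Crit M g c → π (g c) ≠ j := by
    intro g hr c hc h
    have h1 := hcon g c hr hc
    have h2 := (N.reach hr).ok j
    rw [cnt_eq π g c j, if_pos h] at h2
    omega
  have inv : ∀ g, Reach M B π u z g0 g → ∀ i, (π (g i) = j ↔ π (g0 i) = j) := by
    intro g hr
    induction hr with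
    | refl => intro i; exact Iff.rfl
    | tail hr hs ih =>
      rename_i g₁ g₂
      intro i
      rw [← ih i]
      have hr2 := hr.tail hs
      obtain ⟨c, x, hx, hc, rfl, hok⟩ := hs
      by_cases hi : i = c
      · subst hi
        have h1 := key _ hr i hc
        have h2 := key _ hr2 i (crit_update x hc)
        exact ⟨fun h => absurd h h2, fun h => absurd h h1⟩
      · rw [Function.update_of_ne hi]
  obtain ⟨c, hc⟩ := N.crit
  have h1 := hcon g0 c Relation.ReflTransGen.refl hc
  have h2 := rho_eq N j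
  have h3 : cntx π g0 c j ≤
      (univ.filter (fun i => i ∉ Q M B π u z g0 ∧ π (g0 i) = j)).card := by
    unfold cntx
    refine card_le_card ?_
    intro i hi
    simp only [mem_filter, mem_univ, true_and] at hi ⊢
    refine ⟨?_, hi.2⟩
    intro hiQ
    obtain ⟨g, hr, hig⟩ := mem_Q.1 hiQ
    exact key g hr i hig ((inv g hr i).2 hi.2)
  have h4 := N.ok j
  have h5 : π (g0 c) ≠ j := key g0 Relation.ReflTransGen.refl c hc
  rw [cnt_eq π g0 c j, if_neg h5] at h4
  omega

lemma Reach.mono {z' : κ → ℕ} (hz : ∀ j, z j ≤ z' j) {g g' : ι → α}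
    (h : Reach M B π u z' g g') : Reach M B π u z g g' := by
  induction h with
  | refl => exact Relation.ReflTransGen.refl
  | tail _ hs ih =>
    obtain ⟨c, x, hx, hc, rfl, hok⟩ := hs
    exact ih.tail ⟨c, x, hx, hc, rfl, fun j => (Nat.add_le_add_right (hz j) _).trans (hok j)⟩

/-- one level of the recursion -/
lemma recursion_step (S : Setup M B π u n) (hNF : NF M B π u z) {g0 : ι → α}
    (N : Node M B π u z g0) {γ : ℕ} (hγ : ∑ j, z j + Fintype.card ι + (γ + 1) = n + 1)
    (hpos : 1 ≤ γ) :
    ∃ (z' : κ → ℕ) (g' : ι → α) (m : ℕ), NF M B π u z' ∧ Node M B π u z' g' ∧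
      ∑ j, z' j + Fintype.card ι + γ = n + 1 ∧
      (Q M B π u z g0).card * (γ + 1) ≤ m * ((Q M B π u z g0).card + γ) ∧
      (Q M B π u z' g').card + m ≤ (Q M B π u z g0).card := by
  obtain ⟨j, hj, hm⟩ := exists_class S hNF N hγ
  obtain ⟨g, c1, hr, hc1, hroom⟩ := exists_room S N hj
  set z' : κ → ℕ := Function.update z j (z j + 1) with hz'
  have hz'j : z' j = z j + 1 := by simp [hz']
  have hz'ne : ∀ l, l ≠ j → z' l = z l := fun l hl => by simp [hz', Function.update_of_ne hl]
  have hle : ∀ l, z l ≤ z' l := by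
    intro l
    by_cases hl : l = j
    · subst hl; omega
    · rw [hz'ne l hl]
  have hsum : ∑ l, z' l = ∑ l, z l + 1 := by
    rw [← add_sum_erase univ z' (mem_univ j), ← add_sum_erase univ z (mem_univ j), hz'j,
      sum_congr rfl (fun l hl => hz'ne l (ne_of_mem_erase hl))]
    ring
  have hok' : ∀ l, z' l + cntx π g c1 l ≤ u l := by
    intro l
    by_cases hl : l = j
    · subst hl; omega
    · rw [hz'ne l hl]
      have := (N.reach hr).ok l
      rw [cnt_eq π g c1 l] at this
      omega
  have hex : ∃ l, z' l + cntx π g c1 l < u l := by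
    by_contra hno
    push Not at hno
    have h1 : ∑ l, u l ≤ ∑ l, (z' l + cntx π g c1 l) := sum_le_sum fun l _ => hno l
    rw [sum_add_distrib, S.sum, hsum] at h1
    have h2 := sum_cntx π g c1
    omega
  obtain ⟨l, hl⟩ := hex
  have hul : 0 < ((B c1).filter (fun x => π x = l)).card := by
    rw [S.cls c1 l]; omega
  obtain ⟨x, hx⟩ := Finset.card_pos.1 hul
  rw [mem_filter] at hx
  have hokx : OK π u z' (Function.update g c1 x) := by
    intro l'
    rw [cnt_eq π _ c1 l', cntx_update, Function.update_self]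
    split_ifs with h
    · have h' : l = l' := hx.2.symm.trans h
      subst h'
      omega
    · have := hok' l'
      omega
  have hokx' : OK π u z (Function.update g c1 x) := fun l' =>
    (Nat.add_le_add_right (hle l') _).trans (hokx l')
  have hstep : Step M B π u z g (Function.update g c1 x) := ⟨c1, x, hx.1, hc1, rfl, hokx'⟩
  have hN' : Node M B π u z' (Function.update g c1 x) :=
    ⟨((N.reach hr).step hstep).mem, hokx, c1, crit_update x hc1⟩
  refine ⟨z', Function.update g c1 x,
    ((Q M B π u z g0).filter (fun c => j ∈ J M B π u z g0 c)).card, ?_, hN', ?_, hm, ?_⟩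
  · intro f hf hok
    exact hNF f hf fun l' => (Nat.add_le_add_right (hle l') _).trans (hok l')
  · omega
  · rw [← card_union_of_disjoint]
    · refine card_le_card ?_
      intro c hc
      rcases Finset.mem_union.1 hc with hc | hc
      · obtain ⟨h, hh, hch⟩ := mem_Q.1 hc
        exact mem_Q.2 ⟨h, (hr.tail hstep).trans (Reach.mono hle hh), hch⟩
      · exact (mem_filter.1 hc).1
    · rw [Finset.disjoint_left]
      intro c hc hc2
      rw [mem_filter] at hc2
      obtain ⟨h, hh, hch⟩ := mem_Q.1 hc
      have h1 := tight_J S hNF N ((hr.tail hstep).trans (Reach.mono hle hh)) hch hc2.2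
      have h2 := (hN'.reach hh).ok j
      rw [cnt_eq π h c j] at h2
      omega

end

end Run7.h638
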