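import Pool.Agent.Run7.h638.Core

set_option autoImplicit false
set_option linter.unusedSectionVars false

namespace Run7.h638

open Finset Function

variable {α κ : Type*} [Fintype κ] [DecidableEq κ] [DecidableEq α]

section

variable {ι : Type*} [Fintype ι] [DecidableEq ι]
variable {M : Matroid α} {B : ι → Finset α} {π : α → κ} {u : κ → ℕ} {n : ℕ}

lemma numeric {γ q q' m : ℕ} (h1 : 1 ≤ γ) (hq' : γ * (γ - 1) + 2 * min γ 4 + 2 ≤ 2 * q')
    (hm : q * (γ + 1) ≤ m * (q + γ)) (hq : q' + m ≤ q) :
    (γ + 1) * γ + 2 * min (γ + 1) 4 + 2 ≤ 2 * q := by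
  obtain ⟨e, rfl⟩ : ∃ e, γ = e + 1 := ⟨γ - 1, by omega⟩
  have he : (e + 1) * (e + 1 - 1) = e * e + e := by
    rw [Nat.add_sub_cancel]; ring
  rw [he] at hq'
  have he2 : (e + 1 + 1) * (e + 1) = e * e + 3 * e + 2 := by ring
  rw [he2]
  rcases Nat.lt_or_ge e 3 with h3 | h3
  · -- small cases
    interval_cases e
    · rcases Nat.lt_or_ge m 2 with hm2 | hm2
      · interval_cases m <;> omega
      · omega
    · rcases Nat.lt_or_ge m 3 with hm2 | hm2
      · interval_cases m <;> omega
      · omega
    · rcases Nat.lt_or_ge m 4 with hm2 | hm2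
      · interval_cases m <;> omega
      · omega
  · have hmpos : 1 ≤ m := by
      rcases Nat.eq_zero_or_pos m with h | h
      · subst h
        have : 0 < q * (e + 1 + 1) := by
          apply Nat.mul_pos <;> omega
        omega
      · exact h
    have hkey : e + 1 ≤ m := by
      by_contra hlt
      push Not at hlt
      have hle : m ≤ e := by omega
      have h5 : m * (q + (e + 1)) ≤ e * (q + (e + 1)) := Nat.mul_le_mul_right _ hle
      have h6 : q * (e + 1 + 1) = e * q + 2 * q := by ring
      have h7 : e * (q + (e + 1)) = e * q + (e * e + e) := by ring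
      have h8 : 2 * q ≤ e * e + e := by omega
      omega
    omega

/-- the lower bound for the set of critical colours -/
theorem bound (S : Setup M B π u n) : ∀ (γ : ℕ) (z : κ → ℕ) (g0 : ι → α),
    NF M B π u z → Node M B π u z g0 → ∑ j, z j + Fintype.card ι + (γ + 1) = n + 1 →
    (γ + 1) * γ + 2 * min (γ + 1) 4 + 2 ≤ 2 * (Q M B π u z g0).card := by
  intro γ
  induction γ with
  | zero =>
    intro z g0 hNF N hγ
    have := base_bound S hNF N hγ
    omega
  | succ γ ih =>
    intro z g0 hNF N hγ
    obtain ⟨z', g', m, hNF', N', hγ', hm, hq⟩ := recursion_step S hNF N hγ (by omega)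
    have h1 := ih z' g' hNF' N' hγ'
    exact numeric (γ := γ + 1) (by omega) (by simpa using h1) hm hq

end

/-- the main combinatorial statement -/
theorem exists_transversal {M : Matroid α} {π : α → κ} {u : κ → ℕ} :
    ∀ (k d : ℕ) (B : Fin k → Finset α), Setup M B π u (k + d) →
      2 * k ≤ d * (d + 1) + 2 * min (d + 1) 4 →
      ∃ g : Fin k → α, (∀ i, g i ∈ B i) ∧ OK π u 0 g ∧ M.Indep (Set.range g) := by
  intro k
  induction k with
  | zero =>
    intro d B S hk
    refine ⟨Fin.elim0, fun i => i.elim0, fun j => ?_, ?_⟩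
    · simp [cnt]
    · have : Set.range (Fin.elim0 : Fin 0 → α) = ∅ := by
        ext y; simp
      rw [this]
      exact M.empty_indep
  | succ k ih =>
    intro d B S hk
    by_contra hcon
    -- transversal of the first k colours
    have S' : Setup M (fun i : Fin k => B i.castSucc) π u (k + (d + 1)) := by
      refine ⟨fun i => S.indep _, fun i j hij => S.disj _ _ ?_, fun i j => S.cls _ _, ?_⟩
      · intro h
        exact hij (Fin.castSucc_injective k h)
      · rw [S.sum]; ring
    have hk' : 2 * k ≤ (d + 1) * (d + 1 + 1) + 2 * min (d + 1 + 1) 4 := by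
      have : (d + 1) * (d + 1 + 1) = d * (d + 1) + 2 * (d + 1) := by ring
      omega
    obtain ⟨g, hg, hgok, hgI⟩ := ih (d + 1) _ S' hk'
    have hex : ∃ j, cnt π g j < u j := by
      by_contra hno
      push Not at hno
      have h1 : ∑ j, u j ≤ ∑ j, cnt π g j := sum_le_sum fun j _ => hno j
      rw [S.sum, sum_cnt, Fintype.card_fin] at h1
      omega
    obtain ⟨j, hj⟩ := hex
    have huj : 0 < ((B (Fin.last k)).filter (fun x => π x = j)).card := by
      rw [S.cls]; omega
    obtain ⟨x, hx⟩ := Finset.card_pos.1 huj
    rw [mem_filter] at hx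
    set g0 : Fin (k + 1) → α := Fin.snoc g x with hg0
    have hlast : g0 (Fin.last k) = x := by simp [hg0]
    have hcast : ∀ i : Fin k, g0 i.castSucc = g i := fun i => by simp [hg0]
    have hcx : ∀ l, cntx π g0 (Fin.last k) l = cnt π g l := by
      intro l
      unfold cntx cnt
      rw [← card_map (s := univ.filter (fun i : Fin k => π (g i) = l)) Fin.castSuccEmb]
      refine congrArg Finset.card ?_
      ext i
      simp only [mem_filter, mem_univ, true_and, mem_map, Fin.castSuccEmb_apply]
      constructor
      · rintro ⟨h1, h2⟩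
        obtain ⟨i', rfl⟩ := Fin.exists_castSucc_eq.2 h1
        exact ⟨i', by rw [← hcast]; exact h2, rfl⟩
      · rintro ⟨i', h1, rfl⟩
        exact ⟨(Fin.castSucc_lt_last i').ne, by rw [hcast]; exact h1⟩
    have himg : g0 '' {Fin.last k}ᶜ = Set.range g := by
      ext y
      simp only [Set.mem_image, Set.mem_compl_iff, Set.mem_singleton_iff, Set.mem_range]
      constructor
      · rintro ⟨i, h1, rfl⟩
        obtain ⟨i', rfl⟩ := Fin.exists_castSucc_eq.2 h1
        exact ⟨i', (hcast i').symm⟩
      · rintro ⟨i', rfl⟩
        exact ⟨i'.castSucc, (Fin.castSucc_lt_last i').ne, hcast i'⟩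
    have N : Node M B π u 0 g0 := by
      refine ⟨fun i => ?_, fun l => ?_, Fin.last k, ?_⟩
      · induction i using Fin.lastCases with
        | last => rw [hlast]; exact hx.1
        | cast i => rw [hcast]; exact hg i
      · rw [cnt_eq π g0 (Fin.last k) l, hcx, hlast]
        have h1 := hgok l
        simp only [Pi.zero_apply, zero_add] at h1 ⊢
        split_ifs with h
        · have h' : j = l := hx.2.symm.trans h
          subst h'
          omega
        · omega
      · unfold Crit
        rw [himg]
        exact hgI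
    have hNF : NF M B π u 0 := by
      intro f hf hok hI
      exact hcon ⟨f, hf, hok, hI⟩
    have hb := bound S d 0 g0 hNF N (by simp; ring)
    have hle : (Q M B π u 0 g0).card ≤ k + 1 := by
      calc _ ≤ Fintype.card (Fin (k + 1)) := card_le_univ _
        _ = _ := Fintype.card_fin _
    have h9 : (d + 1) * d = d * (d + 1) := by ring
    omega

end Run7.h638
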