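import Pool.Agent.Run7.h638.Core

set_option autoImplicit false
set_option linter.unusedSectionVars false

/-!
The weak setting: the sets `B i` are independent sets of size `n` with at most `u j` elements in
class `j` (they need not be bases).
-/

namespace Run7.h638

open Finset Function

variable {α ι κ : Type*} [Fintype ι] [DecidableEq ι] [Fintype κ] [DecidableEq κ] [DecidableEq α]

structure Pre (M : Matroid α) (B : ι → Finset α) (π : α → κ) (u : κ → ℕ) (n : ℕ) : Prop where
  indep : ∀ i, M.Indep (B i : Set α)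
  disj : ∀ i j, i ≠ j → Disjoint (B i) (B j)
  cls : ∀ i j, ((B i).filter (fun x => π x = j)).card ≤ u j
  card : ∀ i, (B i).card = n

section

variable {M : Matroid α} {B : ι → Finset α} {π : α → κ} {u z : κ → ℕ} {n : ℕ}

lemma Pre.inj (S : Pre M B π u n) {g : ι → α} (hg : ∀ i, g i ∈ B i) : Injective g := by
  intro i j hij
  by_contra hne
  exact Finset.disjoint_left.1 (S.disj i j hne) (hg i) (hij ▸ hg j)

/-- the element of a critical colour lies in the closure of the elements of the other critical
colours -/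
lemma Pre.mem_closure_crit (S : Pre M B π u n) (hNF : NF M B π u z) {g : ι → α}
    (Ng : Node M B π u z g) {c : ι} (hc : Crit M g c) :
    g c ∈ M.closure (g '' {i | Crit M g i ∧ i ≠ c}) := by
  have hinj := S.inj Ng.mem
  have hdep := hNF g Ng.mem Ng.ok
  have hrange : Set.range g = insert (g c) (g '' {c}ᶜ) := by
    ext y
    simp only [Set.mem_range, Set.mem_insert_iff, Set.mem_image, Set.mem_compl_iff,
      Set.mem_singleton_iff]
    constructor
    · rintro ⟨i, rfl⟩
      by_cases hi : i = c
      · exact Or.inl (by rw [hi])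
      · exact Or.inr ⟨i, hi, rfl⟩
    · rintro (rfl | ⟨i, _, rfl⟩)
      · exact ⟨c, rfl⟩
      · exact ⟨i, rfl⟩
  have hnot : g c ∉ g '' {c}ᶜ := by
    rintro ⟨i, hi, hic⟩
    exact hi (hinj hic)
  have hgE : g c ∈ M.E := (S.indep c).subset_ground (Ng.mem c)
  have hcl : g c ∈ M.closure (g '' {c}ᶜ) := by
    have hc' : M.Indep (g '' {c}ᶜ) := hc
    rw [hc'.mem_closure_iff_of_notMem hnot]
    rw [← hrange]
    refine ⟨hdep, ?_⟩
    rw [hrange]
    exact Set.insert_subset hgE hc'.subset_ground
  have hcirc := Matroid.Indep.fundCircuit_isCircuit hc hcl hnot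
  have hmem := hcirc.mem_closure_sdiff_singleton_of_mem (M.mem_fundCircuit (g c) (g '' {c}ᶜ))
  refine M.closure_subset_closure ?_ hmem
  rintro y ⟨hy1, hy2⟩
  have hy3 := M.fundCircuit_subset_insert _ _ hy1
  rcases hy3 with hy3 | ⟨i, hi, rfl⟩
  · exact absurd hy3 hy2
  · refine ⟨i, ⟨?_, hi⟩, rfl⟩
    rw [Matroid.Indep.mem_fundCircuit_iff hc hcl hnot] at hy1
    rw [← hrange] at hy1
    unfold Crit
    convert hy1 using 1
    ext y
    simp only [Set.mem_image, Set.mem_compl_iff, Set.mem_singleton_iff, Set.mem_sdiff,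
      Set.mem_range]
    constructor
    · rintro ⟨l, hl, rfl⟩
      exact ⟨⟨l, rfl⟩, fun h => hl (hinj h)⟩
    · rintro ⟨⟨l, rfl⟩, h⟩
      exact ⟨l, fun hl => h (by rw [hl]), rfl⟩

/-- L1 -/
lemma Pre.mem_closure_of_crit (S : Pre M B π u n) (hNF : NF M B π u z) {g0 g : ι → α}
    (N : Node M B π u z g0) (hr : Reach M B π u z g0 g) {c : ι} (hc : Crit M g c) :
    g c ∈ M.closure (g '' ((Q M B π u z g0 : Set ι) \ {c})) := by
  refine M.closure_subset_closure (Set.image_mono ?_) (S.mem_closure_crit hNF (N.reach hr) hc)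
  rintro i ⟨hi, hic⟩
  exact ⟨Finset.mem_coe.2 (mem_Q.2 ⟨g, hr, hi⟩), hic⟩

lemma Pre.closure_Q_eq (S : Pre M B π u n) (hNF : NF M B π u z) {g0 g : ι → α}
    (N : Node M B π u z g0) (hr : Reach M B π u z g0 g) {c : ι} (hc : Crit M g c) :
    M.closure (g '' (Q M B π u z g0 : Set ι)) =
      M.closure (g '' ((Q M B π u z g0 : Set ι) \ {c})) := by
  have h1 := S.mem_closure_of_crit hNF N hr hc
  have hcQ : c ∈ (Q M B π u z g0 : Set ι) := by
    simp only [Finset.mem_coe, mem_Q]
    exact ⟨g, hr, hc⟩
  refine Set.Subset.antisymm ?_ (M.closure_subset_closure (Set.image_mono Set.sdiff_subset))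
  apply Matroid.closure_subset_closure_of_subset_closure
  rintro y ⟨i, hi, rfl⟩
  by_cases hic : i = c
  · rw [hic]; exact h1
  · have Ng := N.reach hr
    refine M.mem_closure_of_mem' ⟨i, ⟨hi, hic⟩, rfl⟩ ((S.indep i).subset_ground (Ng.mem i))

/-- L2: the closure is the same at each reachable function -/
lemma Pre.closure_const (S : Pre M B π u n) (hNF : NF M B π u z) {g0 g : ι → α}
    (N : Node M B π u z g0) (hr : Reach M B π u z g0 g) :
    M.closure (g '' (Q M B π u z g0 : Set ι)) = M.closure (g0 '' (Q M B π u z g0 : Set ι)) := by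
  induction hr with
  | refl => rfl
  | tail hr hs ih =>
    rename_i g₁ g₂
    rw [← ih]
    have hr2 := hr.tail hs
    obtain ⟨c, x, hx, hc, rfl, hok⟩ := hs
    rw [S.closure_Q_eq hNF N hr2 (crit_update x hc), S.closure_Q_eq hNF N hr hc]
    congr 1
    refine Set.image_congr fun i hi => ?_
    rw [Function.update_of_ne hi.2]

/-- L3 -/
lemma Pre.mem_F_of_ok (S : Pre M B π u n) (hNF : NF M B π u z) {g0 g : ι → α}
    (N : Node M B π u z g0) (hr : Reach M B π u z g0 g) {c : ι} (hc : Crit M g c)
    {x : α} (hx : x ∈ B c) (hok : OK π u z (Function.update g c x)) :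
    x ∈ M.closure (g0 '' (Q M B π u z g0 : Set ι)) := by
  have hr2 : Reach M B π u z g0 (Function.update g c x) := hr.tail ⟨c, x, hx, hc, rfl, hok⟩
  rw [← S.closure_const hNF N hr2]
  have h1 := S.mem_closure_of_crit hNF N hr2 (crit_update x hc)
  rw [Function.update_self] at h1
  exact M.closure_subset_closure (Set.image_mono Set.sdiff_subset) h1

open Classical in
/-- L4 -/
lemma Pre.card_inter_F (S : Pre M B π u n) (hNF : NF M B π u z) {g0 : ι → α}
    (N : Node M B π u z g0) (c : ι) :
    ((B c).filter (fun x => x ∈ M.closure (g0 '' (Q M B π u z g0 : Set ι)))).card + 1 ≤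
      (Q M B π u z g0).card := by
  obtain ⟨c0, hc0⟩ := N.crit
  have hc0Q : c0 ∈ Q M B π u z g0 := mem_Q.2 ⟨g0, Relation.ReflTransGen.refl, hc0⟩
  have hle : ((((B c).filter (fun x => x ∈ M.closure (g0 '' (Q M B π u z g0 : Set ι)))) :
      Finset α) : Set α).encard ≤ (((Q M B π u z g0).erase c0 : Finset ι) : Set ι).encard := by
    have hI : M.Indep ((((B c).filter (fun x =>
        x ∈ M.closure (g0 '' (Q M B π u z g0 : Set ι)))) : Finset α) : Set α) :=
      (S.indep c).subset (by
        intro x hx
        simp only [coe_filter, Set.mem_ofPred_eq] at hx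
        exact hx.1)
    rw [← hI.eRk_eq_encard]
    calc M.eRk _ ≤ M.eRk (M.closure (g0 '' (Q M B π u z g0 : Set ι))) := by
          apply M.eRk_mono
          intro x hx
          simp only [coe_filter, Set.mem_ofPred_eq] at hx
          exact hx.2
      _ = M.eRk (M.closure (g0 '' ((Q M B π u z g0 : Set ι) \ {c0}))) := by
          rw [S.closure_Q_eq hNF N Relation.ReflTransGen.refl hc0]
      _ = M.eRk (g0 '' ((Q M B π u z g0 : Set ι) \ {c0})) := by rw [Matroid.eRk_closure_eq]
      _ ≤ (g0 '' ((Q M B π u z g0 : Set ι) \ {c0})).encard := M.eRk_le_encard _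
      _ ≤ ((Q M B π u z g0 : Set ι) \ {c0}).encard := Set.encard_image_le _ _
      _ = _ := by rw [Finset.coe_erase]
  rw [Set.encard_coe_eq_coe_finsetCard, Set.encard_coe_eq_coe_finsetCard, Nat.cast_le,
    card_erase_of_mem hc0Q] at hle
  have : 0 < (Q M B π u z g0).card := Finset.card_pos.2 ⟨c0, hc0Q⟩
  omega

/-- L5 -/
lemma Pre.tight_of_blocked (S : Pre M B π u n) (hNF : NF M B π u z) {g0 g : ι → α}
    (N : Node M B π u z g0) (hr : Reach M B π u z g0 g) {c : ι} (hc : Crit M g c)
    {x : α} (hx : x ∈ B c) (hxF : x ∉ M.closure (g0 '' (Q M B π u z g0 : Set ι))) :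
    z (π x) + cntx π g c (π x) = u (π x) := by
  have hnok : ¬ OK π u z (Function.update g c x) := fun h => hxF (S.mem_F_of_ok hNF N hr hc hx h)
  have hok := (N.reach hr).ok
  unfold OK at hnok
  push Not at hnok
  obtain ⟨j, hj⟩ := hnok
  rw [cnt_eq π _ c j, cntx_update, Function.update_self] at hj
  have h2 := hok j
  rw [cnt_eq π _ c j] at h2
  split_ifs at hj with h3
  · subst h3
    split_ifs at h2 <;> omega
  · split_ifs at h2 <;> omega

lemma Pre.tight_J (S : Pre M B π u n) (hNF : NF M B π u z) {g0 g : ι → α}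
    (N : Node M B π u z g0) (hr : Reach M B π u z g0 g) {c : ι} (hc : Crit M g c)
    {j : κ} (hj : j ∈ J M B π u z g0 c) :
    z j + cntx π g c j = u j := by
  obtain ⟨x, hx, rfl⟩ := Finset.mem_image.1 hj
  simp only [blk, mem_filter] at hx
  exact S.tight_of_blocked hNF N hr hc hx.1 hx.2

/-- L6 -/
lemma Pre.sum_J (S : Pre M B π u n) (hNF : NF M B π u z) {g0 : ι → α}
    (N : Node M B π u z g0) (c : ι) :
    n + 1 ≤ ∑ j ∈ J M B π u z g0 c, u j + (Q M B π u z g0).card := by
  classical
  have h1 := S.card_inter_F hNF N c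
  have h2 : ((B c).filter (fun x => x ∈ M.closure (g0 '' (Q M B π u z g0 : Set ι)))).card +
      (blk M B π u z g0 c).card = n := by
    rw [← S.card c]
    unfold blk
    exact card_filter_add_card_filter_not _
  have h3 : (blk M B π u z g0 c).card ≤ ∑ j ∈ J M B π u z g0 c, u j := by
    rw [card_eq_sum_card_fiberwise (f := π) (t := J M B π u z g0 c)
      (by intro i hi; exact Finset.mem_coe.2 (Finset.mem_image_of_mem _ hi))]
    refine sum_le_sum fun j _ => ?_
    refine le_trans (card_le_card ?_) (S.cls c j)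
    intro x hx
    simp only [blk, mem_filter] at hx ⊢
    exact ⟨hx.1.1, hx.2⟩
  omega

/-- L7 -/
lemma Pre.sum_J_rho (S : Pre M B π u n) (hNF : NF M B π u z) {g0 : ι → α}
    (N : Node M B π u z g0) {γ : ℕ} (hγ : ∑ j, z j + Fintype.card ι + γ = n + 1) (c : ι) :
    γ ≤ ∑ j ∈ J M B π u z g0 c, rho M B π u z g0 j := by
  have h1 := S.sum_J hNF N c
  have h2 : ∑ j ∈ J M B π u z g0 c, u j = ∑ j ∈ J M B π u z g0 c, rho M B π u z g0 j +
      ∑ j ∈ J M B π u z g0 c, z j + ∑ j ∈ J M B π u z g0 c,
        (univ.filter (fun i => i ∉ Q M B π u z g0 ∧ π (g0 i) = j)).card := by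
    rw [← sum_add_distrib, ← sum_add_distrib]
    exact sum_congr rfl fun j _ => (rho_eq N j).symm
  have h3 : ∑ j ∈ J M B π u z g0 c, z j ≤ ∑ j, z j :=
    sum_le_sum_of_subset (subset_univ _)
  have h4 : ∑ j ∈ J M B π u z g0 c,
        (univ.filter (fun i => i ∉ Q M B π u z g0 ∧ π (g0 i) = j)).card ≤
      (univ.filter (fun i => i ∉ Q M B π u z g0)).card := by
    rw [← card_biUnion]
    · refine card_le_card ?_
      intro i hi
      simp only [mem_biUnion, mem_filter, mem_univ, true_and] at hi ⊢
      obtain ⟨_, _, hi, _⟩ := hi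
      exact hi
    · intro j _ j' _ hjj'
      rw [Function.onFun, Finset.disjoint_left]
      intro i hi hi2
      simp only [mem_filter] at hi hi2
      exact hjj' (hi.2.2.symm.trans hi2.2.2)
  have h5 : (univ.filter (fun i => i ∉ Q M B π u z g0)).card + (Q M B π u z g0).card =
      Fintype.card ι := by
    rw [← card_univ]
    have : (univ.filter (fun i => i ∉ Q M B π u z g0)) = univ \ Q M B π u z g0 := by
      ext i; simp
    rw [this, card_sdiff_add_card_eq_card (subset_univ _)]
  omega

/-- base inequality -/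
lemma Pre.base_bound (S : Pre M B π u n) (hNF : NF M B π u z) {g0 : ι → α}
    (N : Node M B π u z g0) {γ : ℕ} (hγ : ∑ j, z j + Fintype.card ι + γ = n + 1) :
    γ + 1 ≤ (Q M B π u z g0).card := by
  obtain ⟨c, hc⟩ := N.crit
  have hcQ : c ∈ Q M B π u z g0 := mem_Q.2 ⟨g0, Relation.ReflTransGen.refl, hc⟩
  have h1 := S.sum_J_rho hNF N hγ c
  have h2 : ∑ j ∈ J M B π u z g0 c, rho M B π u z g0 j ≤
      ∑ j ∈ J M B π u z g0 c,
        (((Q M B π u z g0).erase c).filter (fun i => π (g0 i) = j)).card := by
    refine sum_le_sum fun j hj => ?_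
    have h3 := S.tight_J hNF N Relation.ReflTransGen.refl hc hj
    have h4 := rho_eq N j
    have h5 : cntx π g0 c j ≤
        (univ.filter (fun i => i ∉ Q M B π u z g0 ∧ π (g0 i) = j)).card +
        (((Q M B π u z g0).erase c).filter (fun i => π (g0 i) = j)).card := by
      rw [← card_union_of_disjoint]
      · unfold cntx
        refine card_le_card ?_
        intro i hi
        simp only [mem_filter, mem_univ, true_and, mem_union, mem_erase] at hi ⊢
        by_cases hi2 : i ∈ Q M B π u z g0
        · exact Or.inr ⟨⟨hi.1, hi2⟩, hi.2⟩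
        · exact Or.inl ⟨hi2, hi.2⟩
      · rw [Finset.disjoint_left]
        intro i hi hi2
        simp only [mem_filter, mem_univ, true_and, mem_erase] at hi hi2
        exact hi.1 hi2.1.2
    omega
  have h6 : ∑ j ∈ J M B π u z g0 c,
        (((Q M B π u z g0).erase c).filter (fun i => π (g0 i) = j)).card ≤
        ((Q M B π u z g0).erase c).card := by
    rw [← card_biUnion]
    · refine card_le_card ?_
      intro i hi
      simp only [mem_biUnion, mem_filter] at hi
      obtain ⟨_, _, hi, _⟩ := hi
      exact hi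
    · intro j _ j' _ hjj'
      rw [Function.onFun, Finset.disjoint_left]
      intro i hi hi2
      simp only [mem_filter] at hi hi2
      exact hjj' (hi.2.symm.trans hi2.2)
  rw [card_erase_of_mem hcQ] at h6
  have : 0 < (Q M B π u z g0).card := Finset.card_pos.2 ⟨c, hcQ⟩
  omega

/-- an available element of `B c` -/
lemma Pre.card_avail (S : Pre M B π u n) (z' : κ → ℕ) (g : ι → α) (c : ι) :
    n + 1 ≤ ((B c).filter (fun x => z' (π x) + cntx π g c (π x) < u (π x))).card +
      ∑ j, z' j + Fintype.card ι := by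
  have h1 : ((B c).filter (fun x => z' (π x) + cntx π g c (π x) < u (π x))).card +
      ((B c).filter (fun x => ¬ (z' (π x) + cntx π g c (π x) < u (π x)))).card = n := by
    rw [card_filter_add_card_filter_not, S.card c]
  have h2 : ((B c).filter (fun x => ¬ (z' (π x) + cntx π g c (π x) < u (π x)))).card ≤
      ∑ j, (z' j + cntx π g c j) := by
    rw [card_eq_sum_card_fiberwise (f := π) (t := univ) (by intro i _; simp)]
    refine sum_le_sum fun j _ => ?_
    by_cases hj : z' j + cntx π g c j < u j
    · have : (((B c).filter (fun x => ¬ (z' (π x) + cntx π g c (π x) < u (π x)))).filter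
          (fun x => π x = j)) = ∅ := by
        rw [Finset.filter_eq_empty_iff]
        intro x hx hxj
        rw [mem_filter] at hx
        apply hx.2
        rw [hxj]
        exact hj
      rw [this]
      simp
    · refine le_trans (card_le_card ?_) ((S.cls c j).trans (Nat.le_of_not_lt hj))
      intro x hx
      rw [mem_filter, mem_filter] at hx
      rw [mem_filter]
      exact ⟨hx.1.1, hx.2⟩
  have h3 := sum_cntx π g c
  rw [sum_add_distrib] at h2
  omega

lemma ok_update {g : ι → α} {c : ι} {x : α} (h : ∀ l, z l + cntx π g c l ≤ u l)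
    (hx : z (π x) + cntx π g c (π x) < u (π x)) : OK π u z (Function.update g c x) := by
  intro l
  rw [cnt_eq π _ c l, cntx_update, Function.update_self]
  split_ifs with h1
  · subst h1; omega
  · have := h l; omega

/-- if some colour of `Q` lies in class `j`, then class `j` has room at some reachable
function -/
lemma exists_room' {g0 : ι → α} (N : Node M B π u z g0) {j : κ} {i0 : ι}
    (hi0 : i0 ∈ Q M B π u z g0) (hj : π (g0 i0) = j) :
    ∃ g c, Reach M B π u z g0 g ∧ Crit M g c ∧ z j + cntx π g c j < u j := by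
  by_contra hcon
  push Not at hcon
  have key : ∀ g, Reach M B π u z g0 g → ∀ c, Crit M g c → π (g c) ≠ j := by
    intro g hr c hc h
    have h1 := hcon g c hr hc
    have h2 := (N.reach hr).ok j
    rw [cnt_eq π g c j, if_pos h] at h2
    omega
  have inv : ∀ g, Reach M B π u z g0 g → ∀ i, (π (g i) = j ↔ π (g0 i) = j) := by
    intro g hr
    induction hr with
    | refl => intro i; exact Iff.rfl
    | tail hr hs ih =>
      rename_i g₁ g₂
      intro i
      rw [← ih i]
      have hr2 := hr.tail hs
      obtain ⟨c, x, hx, hc, rfl, hok⟩ := hs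
      by_cases hi : i = c
      · subst hi
        have h1 := key _ hr i hc
        have h2 := key _ hr2 i (crit_update x hc)
        exact ⟨fun h => absurd h h2, fun h => absurd h h1⟩
      · rw [Function.update_of_ne hi]
  obtain ⟨g, hr, hig⟩ := mem_Q.1 hi0
  exact key g hr i0 hig ((inv g hr i0).2 hj)

/-- one level of the recursion, given the class `j` -/
lemma Pre.reserve (S : Pre M B π u n) (hNF : NF M B π u z) {g0 : ι → α}
    (N : Node M B π u z g0) {γ : ℕ} (hγ : ∑ j, z j + Fintype.card ι + (γ + 1) = n + 1)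
    (hpos : 1 ≤ γ) {j : κ} {i0 : ι} (hi0 : i0 ∈ Q M B π u z g0) (hj : π (g0 i0) = j) :
    ∃ (z' : κ → ℕ) (g' : ι → α), NF M B π u z' ∧ Node M B π u z' g' ∧
      ∑ j, z' j + Fintype.card ι + γ = n + 1 ∧
      (Q M B π u z' g').card +
        ((Q M B π u z g0).filter (fun c => j ∈ J M B π u z g0 c)).card ≤
          (Q M B π u z g0).card := by
  obtain ⟨g, c1, hr, hc1, hroom⟩ := exists_room' N hi0 hj
  set z' : κ → ℕ := Function.update z j (z j + 1) with hz'
  have hz'j : z' j = z j + 1 := by simp [hz']
  have hz'ne : ∀ l, l ≠ j → z' l = z l := fun l hl => by simp [hz', Function.update_of_ne hl]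
  have hle : ∀ l, z l ≤ z' l := by
    intro l
    by_cases hl : l = j
    · subst hl; omega
    · rw [hz'ne l hl]
  have hsum : ∑ l, z' l = ∑ l, z l + 1 := by
    rw [← add_sum_erase univ z' (mem_univ j), ← add_sum_erase univ z (mem_univ j), hz'j,
      sum_congr rfl (fun l hl => hz'ne l (ne_of_mem_erase hl))]
    ring
  have hok' : ∀ l, z' l + cntx π g c1 l ≤ u l := by
    intro l
    by_cases hl : l = j
    · subst hl; omega
    · rw [hz'ne l hl]
      have := (N.reach hr).ok l
      rw [cnt_eq π g c1 l] at this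
      omega
  have hav := S.card_avail z' g c1
  have hpos' : 0 < ((B c1).filter (fun x => z' (π x) + cntx π g c1 (π x) < u (π x))).card := by
    omega
  obtain ⟨x, hx⟩ := Finset.card_pos.1 hpos'
  rw [mem_filter] at hx
  have hokx : OK π u z' (Function.update g c1 x) := ok_update hok' hx.2
  have hokx' : OK π u z (Function.update g c1 x) := fun l' =>
    (Nat.add_le_add_right (hle l') _).trans (hokx l')
  have hstep : Step M B π u z g (Function.update g c1 x) := ⟨c1, x, hx.1, hc1, rfl, hokx'⟩
  have hN' : Node M B π u z' (Function.update g c1 x) :=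
    ⟨((N.reach hr).step hstep).mem, hokx, c1, crit_update x hc1⟩
  refine ⟨z', Function.update g c1 x, ?_, hN', ?_, ?_⟩
  · intro f hf hok
    exact hNF f hf fun l' => (Nat.add_le_add_right (hle l') _).trans (hok l')
  · omega
  · rw [← card_union_of_disjoint]
    · refine card_le_card ?_
      intro c hc
      rcases Finset.mem_union.1 hc with hc | hc
      · obtain ⟨h, hh, hch⟩ := mem_Q.1 hc
        exact mem_Q.2 ⟨h, (hr.tail hstep).trans (Reach.mono hle hh), hch⟩
      · exact (mem_filter.1 hc).1
    · rw [Finset.disjoint_left]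
      intro c hc hc2
      rw [mem_filter] at hc2
      obtain ⟨h, hh, hch⟩ := mem_Q.1 hc
      have h1 := S.tight_J hNF N ((hr.tail hstep).trans (Reach.mono hle hh)) hch hc2.2
      have h2 := (hN'.reach hh).ok j
      rw [cnt_eq π h c j] at h2
      omega

/-- the number of colours of `Q` other than `c0` in class `j` -/
noncomputable def occ (M : Matroid α) (B : ι → Finset α) (π : α → κ) (u z : κ → ℕ)
    (g0 : ι → α) (c0 : ι) (j : κ) : ℕ :=
  (((Q M B π u z g0).erase c0).filter (fun i => π (g0 i) = j)).card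

/-- averaging over the neighbours of `c0` -/
lemma Pre.exists_class (S : Pre M B π u n) (hNF : NF M B π u z) {g0 : ι → α}
    (N : Node M B π u z g0) {γ : ℕ} (hγ : ∑ j, z j + Fintype.card ι + γ = n + 1)
    (hpos : 1 ≤ γ) :
    ∃ i0 ∈ Q M B π u z g0,
      γ * γ ≤ ((Q M B π u z g0).filter (fun c => π (g0 i0) ∈ J M B π u z g0 c)).card *
          ((Q M B π u z g0).card - 1) := by
  classical
  obtain ⟨c0, hc0⟩ := N.crit
  have hc0Q : c0 ∈ Q M B π u z g0 := mem_Q.2 ⟨g0, Relation.ReflTransGen.refl, hc0⟩
  set X : Finset α := (B c0).filter (fun x => z (π x) + cntx π g0 c0 (π x) < u (π x)) with hX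
  have hXcard : γ ≤ X.card := by
    have := S.card_avail z g0 c0
    rw [← hX] at this
    omega
  have hokc : ∀ l, z l + cntx π g0 c0 l ≤ u l := by
    intro l
    have := N.ok l
    rw [cnt_eq π g0 c0 l] at this
    omega
  have hstep : ∀ x ∈ X, Step M B π u z g0 (Function.update g0 c0 x) := by
    intro x hx
    rw [hX, mem_filter] at hx
    exact ⟨c0, x, hx.1, hc0, rfl, ok_update hokc hx.2⟩
  have hreach : ∀ x ∈ X, Reach M B π u z g0 (Function.update g0 c0 x) := fun x hx =>
    Relation.ReflTransGen.single (hstep x hx)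
  set T : Finset ι := (univ.filter (fun c => ∃ x ∈ X, Crit M (Function.update g0 c0 x) c)).erase c0
    with hT
  have hTmem : ∀ c, c ∈ T ↔ c ≠ c0 ∧ ∃ x ∈ X, Crit M (Function.update g0 c0 x) c := by
    intro c
    rw [hT, mem_erase, mem_filter]
    simp
  have hTcard : X.card ≤ T.card := by
    have hI : M.Indep (X : Set α) := (S.indep c0).subset (by
      intro x hx
      have hx' : x ∈ X := hx
      rw [hX, mem_filter] at hx'
      exact hx'.1)
    have hsub : (X : Set α) ⊆ M.closure (g0 '' (T : Set ι)) := by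
      intro x hx
      have hx' : x ∈ X := hx
      have h1 := S.mem_closure_crit hNF (N.step (hstep x hx')) (crit_update x hc0)
      rw [Function.update_self] at h1
      refine M.closure_subset_closure ?_ h1
      rintro _ ⟨i, ⟨hi1, hi2⟩, rfl⟩
      rw [Function.update_of_ne hi2]
      exact ⟨i, Finset.mem_coe.2 ((hTmem i).2 ⟨hi2, x, hx', hi1⟩), rfl⟩
    have h2 : (X : Set α).encard ≤ (T : Set ι).encard := by
      rw [← hI.eRk_eq_encard]
      calc M.eRk (X : Set α) ≤ M.eRk (M.closure (g0 '' (T : Set ι))) := M.eRk_mono hsub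
        _ = M.eRk (g0 '' (T : Set ι)) := by rw [Matroid.eRk_closure_eq]
        _ ≤ (g0 '' (T : Set ι)).encard := M.eRk_le_encard _
        _ ≤ (T : Set ι).encard := Set.encard_image_le _ _
    rw [Set.encard_coe_eq_coe_finsetCard, Set.encard_coe_eq_coe_finsetCard, Nat.cast_le] at h2
    exact h2
  have hTQ : T ⊆ Q M B π u z g0 := by
    intro c hc
    obtain ⟨_, x, hx, hcx⟩ := (hTmem c).1 hc
    exact mem_Q.2 ⟨_, hreach x hx, hcx⟩
  -- the contribution of c0
  have hcon0 : γ ≤ ∑ j ∈ J M B π u z g0 c0, occ M B π u z g0 c0 j := by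
    refine (S.sum_J_rho hNF N hγ c0).trans (sum_le_sum fun j hj => ?_)
    have h3 := S.tight_J hNF N Relation.ReflTransGen.refl hc0 hj
    have h4 := rho_eq N j
    have h5 : cntx π g0 c0 j ≤
        (univ.filter (fun i => i ∉ Q M B π u z g0 ∧ π (g0 i) = j)).card +
        occ M B π u z g0 c0 j := by
      unfold occ
      rw [← card_union_of_disjoint]
      · unfold cntx
        refine card_le_card ?_
        intro i hi
        simp only [mem_filter, mem_univ, true_and, mem_union, mem_erase] at hi ⊢
        by_cases hi2 : i ∈ Q M B π u z g0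
        · exact Or.inr ⟨⟨hi.1, hi2⟩, hi.2⟩
        · exact Or.inl ⟨hi2, hi.2⟩
      · rw [Finset.disjoint_left]
        intro i hi hi2
        simp only [mem_filter, mem_univ, true_and, mem_erase] at hi hi2
        exact hi.1 hi2.1.2
    omega
  -- the contribution of the other colours
  have hcon1 : ∀ c ∈ T, γ ≤ ∑ j ∈ J M B π u z g0 c, occ M B π u z g0 c0 j + 1 := by
    intro c hc
    obtain ⟨hcc0, x, hx, hcx⟩ := (hTmem c).1 hc
    have h1 := S.sum_J_rho hNF N hγ c
    have h2 : ∑ j ∈ J M B π u z g0 c, rho M B π u z g0 j ≤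
        ∑ j ∈ J M B π u z g0 c, (occ M B π u z g0 c0 j + if π x = j then 1 else 0) := by
      refine sum_le_sum fun j hj => ?_
      have h3 := S.tight_J hNF N (hreach x hx) hcx hj
      have h4 := rho_eq N j
      have h5 : cntx π (Function.update g0 c0 x) c j ≤
          (univ.filter (fun i => i ∉ Q M B π u z g0 ∧ π (g0 i) = j)).card +
          (occ M B π u z g0 c0 j + if π x = j then 1 else 0) := by
        have h6 : (univ.filter (fun i => i ≠ c ∧ π (Function.update g0 c0 x i) = j)) ⊆
            ((univ.filter (fun i => i ∉ Q M B π u z g0 ∧ π (g0 i) = j)) ∪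
            ((Q M B π u z g0).erase c0).filter (fun i => π (g0 i) = j)) ∪
              (if π x = j then {c0} else ∅) := by
          intro i hi
          simp only [mem_filter, mem_univ, true_and, mem_union, mem_erase] at hi ⊢
          by_cases hic : i = c0
          · subst hic
            rw [Function.update_self] at hi
            rw [if_pos hi.2]
            exact Or.inr (by simp)
          · rw [Function.update_of_ne hic] at hi
            left
            by_cases hi2 : i ∈ Q M B π u z g0
            · exact Or.inr ⟨⟨hic, hi2⟩, hi.2⟩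
            · exact Or.inl ⟨hi2, hi.2⟩
        unfold cntx
        refine (card_le_card h6).trans ((card_union_le _ _).trans ?_)
        have h7 := card_union_le (univ.filter (fun i => i ∉ Q M B π u z g0 ∧ π (g0 i) = j))
          (((Q M B π u z g0).erase c0).filter (fun i => π (g0 i) = j))
        have h8 : (if π x = j then ({c0} : Finset ι) else ∅).card = if π x = j then 1 else 0 := by
          split_ifs <;> simp
        unfold occ
        omega
      omega
    rw [sum_add_distrib] at h2
    have h9 : ∑ j ∈ J M B π u z g0 c, (if π x = j then 1 else 0) ≤ 1 := by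
      rw [sum_ite_eq]
      split_ifs <;> omega
    omega
  -- total weight
  have hocc : ∑ j, occ M B π u z g0 c0 j = (Q M B π u z g0).card - 1 := by
    unfold occ
    rw [← card_erase_of_mem hc0Q, card_eq_sum_card_fiberwise (f := fun i => π (g0 i))
      (t := univ) (by intro i _; simp)]
  by_contra hno
  push Not at hno
  have hq : γ ≤ (Q M B π u z g0).card - 1 := by
    have := S.base_bound hNF N hγ
    omega
  have htotal : γ * γ ≤ ∑ c ∈ Q M B π u z g0, ∑ j ∈ J M B π u z g0 c, occ M B π u z g0 c0 j := by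
    have h1 : ∑ c ∈ insert c0 T, ∑ j ∈ J M B π u z g0 c, occ M B π u z g0 c0 j ≤
        ∑ c ∈ Q M B π u z g0, ∑ j ∈ J M B π u z g0 c, occ M B π u z g0 c0 j :=
      sum_le_sum_of_subset (insert_subset hc0Q hTQ)
    refine le_trans ?_ h1
    have hc0T : c0 ∉ T := fun h => ((hTmem c0).1 h).1 rfl
    rw [sum_insert hc0T]
    have h2 : T.card * (γ - 1) ≤ ∑ c ∈ T, ∑ j ∈ J M B π u z g0 c, occ M B π u z g0 c0 j := by
      rw [← smul_eq_mul, ← sum_const]
      refine sum_le_sum fun c hc => ?_
      have := hcon1 c hc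
      omega
    obtain ⟨e, rfl⟩ : ∃ e, γ = e + 1 := ⟨γ - 1, by omega⟩
    have h3 : (e + 1) * e ≤ T.card * (e + 1 - 1) := by
      rw [Nat.add_sub_cancel]
      exact Nat.mul_le_mul_right _ (hXcard.trans hTcard)
    calc (e + 1) * (e + 1) = (e + 1) + (e + 1) * e := by ring
      _ ≤ _ := by omega
  have hswap : ∑ c ∈ Q M B π u z g0, ∑ j ∈ J M B π u z g0 c, occ M B π u z g0 c0 j =
      ∑ j, ((Q M B π u z g0).filter (fun c => j ∈ J M B π u z g0 c)).card *
        occ M B π u z g0 c0 j := by
    have h3 : ∀ c, ∑ j ∈ J M B π u z g0 c, occ M B π u z g0 c0 j =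
        ∑ j, if j ∈ J M B π u z g0 c then occ M B π u z g0 c0 j else 0 := by
      intro c
      rw [← sum_filter]
      congr 1
      ext j; simp
    simp_rw [h3]
    rw [sum_comm]
    refine sum_congr rfl fun j _ => ?_
    rw [← sum_filter, sum_const, smul_eq_mul]
  rw [hswap] at htotal
  have hpt : ∀ j, ((Q M B π u z g0).filter (fun c => j ∈ J M B π u z g0 c)).card *
        occ M B π u z g0 c0 j * ((Q M B π u z g0).card - 1) ≤
        (γ * γ - 1) * occ M B π u z g0 c0 j := by
    intro j
    rcases Nat.eq_zero_or_pos (occ M B π u z g0 c0 j) with h | h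
    · rw [h]; simp
    · obtain ⟨i, hi⟩ := Finset.card_pos.1 h
      rw [mem_filter, mem_erase] at hi
      have h1 := hno i hi.1.2
      rw [hi.2] at h1
      calc _ = (((Q M B π u z g0).filter (fun c => j ∈ J M B π u z g0 c)).card *
              ((Q M B π u z g0).card - 1)) * occ M B π u z g0 c0 j := by ring
        _ ≤ _ := Nat.mul_le_mul_right _ (by omega)
  have hsum := sum_le_sum fun j (_ : j ∈ (univ : Finset κ)) => hpt j
  rw [← sum_mul, ← mul_sum, hocc] at hsum
  have h1 := (Nat.mul_le_mul_right ((Q M B π u z g0).card - 1) htotal).trans hsum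
  have h2 := Nat.le_of_mul_le_mul_right h1 (by omega)
  have h3 : 0 < γ * γ := Nat.mul_pos hpos hpos
  omega

end

end Run7.h638
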